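import Pool.Agent.Helper38.FF.Residue
import Pool.Agent.Helper36.Ses.Defs
import Pool.Agent.Helper36.Ses.Common

/-!
# Places of function fields of curves: the bridge to `Seshadri.Place`
-/

namespace Seshadri

open FFPlaces Function

variable {k κ : Type} [Field k] [Field κ] [Algebra k κ]

theorem IsCurveField.toFF (h : IsCurveField k κ) : FFPlaces.IsCurveField k κ where
  essFiniteType := by
    rw [← IntermediateField.fg_top_iff]
    exact h.fg
  trdeg_eq_one := h.trdeg

namespace Place

theorem ord_one (P : Place k κ) : P.ord 1 = 0 := by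
  have := P.ord_algebraMap 1
  rwa [map_one] at this

theorem ord_inv (P : Place k κ) (x : κ) : P.ord x⁻¹ = -P.ord x := by
  rcases eq_or_ne x 0 with rfl | hx
  · rw [inv_zero, P.ord_zero, neg_zero]
  · have := P.ord_mul x x⁻¹ hx (inv_ne_zero hx)
    rw [mul_inv_cancel₀ hx, P.ord_one] at this
    omega

/-- the absolute value `exp (-ord)` -/
noncomputable def abv (P : Place k κ) : AbsoluteValue κ ℝ := by
  classical exact
  { toFun := fun x => if x = 0 then 0 else Real.exp (-(P.ord x : ℝ))
    map_mul' := fun x y => by
      by_cases hx : x = 0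
      · simp [hx]
      by_cases hy : y = 0
      · simp [hy]
      · simp only [hx, hy, mul_eq_zero, or_self, if_false]
        rw [P.ord_mul x y hx hy, ← Real.exp_add]
        push_cast
        ring_nf
    nonneg' := fun x => by
      by_cases hx : x = 0
      · simp [hx]
      · simp only [hx, if_false]
        exact (Real.exp_pos _).le
    eq_zero' := fun x => by
      by_cases hx : x = 0
      · simp [hx]
      · simp only [hx, if_false, iff_false]
        exact (Real.exp_pos _).ne'
    add_le' := fun x y => by
      by_cases hx : x = 0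
      · simp [hx]
      by_cases hy : y = 0
      · simp [hy]
      by_cases hxy : x + y = 0
      · simp only [hx, hy, hxy, if_true, if_false]
        positivity
      · simp only [hx, hy, hxy, if_false]
        have h := P.ord_add x y hx hy hxy
        rcases min_le_iff.mp h with h | h
        · have h1 : Real.exp (-(P.ord (x + y) : ℝ)) ≤ Real.exp (-(P.ord x : ℝ)) := by
            rw [Real.exp_le_exp, neg_le_neg_iff]
            exact_mod_cast h
          have h2 := Real.exp_pos (-(P.ord y : ℝ))
          linarith
        · have h1 : Real.exp (-(P.ord (x + y) : ℝ)) ≤ Real.exp (-(P.ord y : ℝ)) := by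
            rw [Real.exp_le_exp, neg_le_neg_iff]
            exact_mod_cast h
          have h2 := Real.exp_pos (-(P.ord x : ℝ))
          linarith }

theorem abv_apply (P : Place k κ) {x : κ} (hx : x ≠ 0) : P.abv x = Real.exp (-(P.ord x : ℝ)) := by
  classical
  exact if_neg hx

theorem isPlace_abv (P : Place k κ) : IsPlace k κ P.abv where
  nonarch x y := by
    by_cases hx : x = 0
    · rw [hx, zero_add]
      exact le_max_right _ _
    by_cases hy : y = 0
    · rw [hy, add_zero]
      exact le_max_left _ _
    by_cases hxy : x + y = 0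
    · rw [hxy, map_zero]
      exact le_max_of_le_left (P.abv.nonneg _)
    rw [P.abv_apply hx, P.abv_apply hy, P.abv_apply hxy]
    have h := P.ord_add x y hx hy hxy
    rcases min_le_iff.mp h with h | h
    · refine le_max_of_le_left ?_
      rw [Real.exp_le_exp, neg_le_neg_iff]
      exact_mod_cast h
    · refine le_max_of_le_right ?_
      rw [Real.exp_le_exp, neg_le_neg_iff]
      exact_mod_cast h
  apply_algebraMap_le c := by
    rcases eq_or_ne c 0 with rfl | hc
    · simp
    · rw [P.abv_apply (by simpa using hc), P.ord_algebraMap]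
      simp
  exists_int x hx := ⟨-P.ord x, by rw [P.abv_apply hx]; push_cast; rfl⟩
  exists_unif := by
    obtain ⟨t, ht⟩ := P.exists_ord_eq_one
    refine ⟨t, ?_⟩
    have ht0 : t ≠ 0 := by
      rintro rfl
      rw [P.ord_zero] at ht
      exact zero_ne_one ht
    rw [P.abv_apply ht0, ht]
    norm_num

theorem log_abv (P : Place k κ) (x : κ) : Real.log (P.abv x) = -(P.ord x : ℝ) := by
  rcases eq_or_ne x 0 with rfl | hx
  · rw [map_zero, Real.log_zero, P.ord_zero]
    simp
  · rw [P.abv_apply hx, Real.log_exp]

/-- the integer valued place attached to an absolute value -/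
noncomputable def ofAbv {v : AbsoluteValue κ ℝ} (hv : IsPlace k κ v) : Place k κ where
  ord x := ⌊-Real.log (v x)⌋
  ord_zero := by simp
  ord_mul x y hx hy := by
    obtain ⟨m, hm⟩ := hv.exists_int x hx
    obtain ⟨n, hn⟩ := hv.exists_int y hy
    rw [map_mul, hm, hn, ← Real.exp_add, Real.log_exp, Real.log_exp, Real.log_exp]
    have h1 : (-((m : ℝ) + n)) = ((-(m + n) : ℤ) : ℝ) := by push_cast; ring
    have h2 : (-(m : ℝ)) = ((-m : ℤ) : ℝ) := by push_cast; ring
    have h3 : (-(n : ℝ)) = ((-n : ℤ) : ℝ) := by push_cast; ring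
    rw [h1, h2, h3, Int.floor_intCast, Int.floor_intCast, Int.floor_intCast]
    ring
  ord_add x y hx hy hxy := by
    have h := hv.add_le x y
    rcases le_max_iff.mp h with h | h
    · refine min_le_of_left_le (Int.floor_le_floor ?_)
      rw [neg_le_neg_iff]
      exact Real.log_le_log (v.pos hxy) h
    · refine min_le_of_right_le (Int.floor_le_floor ?_)
      rw [neg_le_neg_iff]
      exact Real.log_le_log (v.pos hxy) h
  ord_algebraMap c := by
    rcases eq_or_ne c 0 with rfl | hc
    · simp
    · rw [hv.apply_algebraMap hc]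
      simp
  exists_ord_eq_one := by
    obtain ⟨t, ht⟩ := hv.exists_unif
    refine ⟨t, ?_⟩
    rw [ht, Real.log_exp]
    norm_num

theorem ofAbv_ord {v : AbsoluteValue κ ℝ} (hv : IsPlace k κ v) {x : κ} (hx : x ≠ 0) :
    v x = Real.exp (-((ofAbv hv).ord x : ℝ)) := by
  obtain ⟨m, hm⟩ := hv.exists_int x hx
  show v x = Real.exp (-((⌊-Real.log (v x)⌋ : ℤ) : ℝ))
  rw [hm, Real.log_exp]
  have h2 : (-(m : ℝ)) = ((-m : ℤ) : ℝ) := by push_cast; ring
  rw [h2, Int.floor_intCast]
  push_cast
  ring_nf

/-- places as integer valued functions are the same as places as absolute values -/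
noncomputable def equivPlaces : Place k κ ≃ places k κ where
  toFun P := ⟨P.abv, P.isPlace_abv⟩
  invFun v := ofAbv v.2
  left_inv P := by
    apply Place.ext
    funext x
    show ⌊-Real.log (P.abv x)⌋ = P.ord x
    rw [P.log_abv, neg_neg, Int.floor_intCast]
  right_inv v := by
    apply Subtype.ext
    ext x
    show (ofAbv v.2).abv x = v.1 x
    rcases eq_or_ne x 0 with rfl | hx
    · rw [map_zero, map_zero]
    · rw [abv_apply _ hx, ← ofAbv_ord v.2 hx]

theorem equivPlaces_apply (P : Place k κ) : ((equivPlaces P : places k κ) : AbsoluteValue κ ℝ) =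
    P.abv := rfl

theorem transcendental_of_ne [IsAlgClosed k] {f : κ} (hf : ∀ c : k, f ≠ algebraMap k κ c) :
    Transcendental k f := by
  rcases eq_algebraMap_or_transcendental (k := k) f with ⟨c, hc⟩ | h
  · exact absurd hc (hf c)
  · exact h

variable [IsAlgClosed k]

/-- (P1) only finitely many zeros and poles -/
theorem finite_ord_ne (h : IsCurveField k κ) (f : κ) :
    {v : Place k κ | v.ord f ≠ 0}.Finite := by
  have := h.toFF
  rcases eq_or_ne f 0 with rfl | hf
  · convert Set.finite_empty
    rw [Set.eq_empty_iff_forall_notMem]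
    intro v hv
    exact hv v.ord_zero
  · have h1 := finite_ne_one (k := k) hf
    refine (h1.preimage (f := fun P : Place k κ => P.abv) ?_).subset ?_
    · intro P _ Q _ hPQ
      apply equivPlaces.injective
      exact Subtype.ext hPQ
    · intro P hP
      refine ⟨P.isPlace_abv, ?_⟩
      rw [P.abv_apply hf]
      intro h2
      rw [Real.exp_eq_one_iff, neg_eq_zero] at h2
      exact hP (by exact_mod_cast h2)

/-- (P2) number of zeros = degree -/
theorem sum_zeros (h : IsCurveField k κ) (f : κ) (hf : ∀ c : k, f ≠ algebraMap k κ c) :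
    ∑ᶠ v : Place k κ, (v.ord f).toNat = Module.finrank (IntermediateField.adjoin k {f}) κ := by
  have := h.toFF
  have hf' := transcendental_of_ne hf
  have h1 := finsum_posLog_inv hf'
  have h2 : ∀ P : Place k κ, Real.posLog ((equivPlaces P).val f⁻¹) = ((P.ord f).toNat : ℝ) := by
    intro P
    rw [equivPlaces_apply, Real.posLog, P.log_abv, P.ord_inv]
    push_cast
    rw [neg_neg]
    rcases le_total 0 (P.ord f) with h0 | h0
    · rw [max_eq_right (by exact_mod_cast h0)]
      have : ((P.ord f).toNat : ℤ) = P.ord f := Int.toNat_of_nonneg h0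
      exact_mod_cast this.symm
    · rw [max_eq_left (by exact_mod_cast h0), Int.toNat_of_nonpos h0, Nat.cast_zero]
  have h3 : ∑ᶠ P : Place k κ, ((P.ord f).toNat : ℝ) =
      Module.finrank (IntermediateField.adjoin k {f}) κ := by
    rw [← h1, ← finsum_comp_equiv equivPlaces]
    exact finsum_congr fun P => (h2 P).symm
  have hfin : (support fun P : Place k κ => (P.ord f).toNat).Finite := by
    refine (finite_ord_ne h f).subset fun P hP => ?_
    intro h0
    refine hP ?_
    show (P.ord f).toNat = 0
    rw [h0]
    rfl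
  have h4 : ((∑ᶠ P : Place k κ, (P.ord f).toNat : ℕ) : ℝ) =
      ∑ᶠ P : Place k κ, ((P.ord f).toNat : ℝ) := by
    exact map_finsum (Nat.castAddMonoidHom ℝ) hfin
  rw [h3] at h4
  exact_mod_cast h4

/-- (P2') the extension `κ / k(f)` is finite for non-constant `f` -/
theorem finite_adjoin (h : IsCurveField k κ) (f : κ) (hf : ∀ c : k, f ≠ algebraMap k κ c) :
    FiniteDimensional (IntermediateField.adjoin k {f}) κ := by
  have := h.toFF
  exact IsCurveField.finite_adjoin (transcendental_of_ne hf)

/-- (P3) product formula -/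
theorem sum_ord (h : IsCurveField k κ) (f : κ) (hf : f ≠ 0) :
    ∑ᶠ v : Place k κ, v.ord f = 0 := by
  have := h.toFF
  have h1 := product_formula_places (k := k) hf
  have h2 : ∑ᶠ P : Place k κ, -(P.ord f : ℝ) = 0 := by
    have h3 : Real.log (∏ᶠ v : places k κ, v.val f) = 0 := by rw [h1, Real.log_one]
    rw [Real.log_finprod (fun v => v.val.pos hf), ← finsum_comp_equiv equivPlaces] at h3
    rw [← h3]
    exact finsum_congr fun P => (P.log_abv f).symm
  rw [finsum_neg_distrib, neg_eq_zero] at h2
  have h4 : ((∑ᶠ P : Place k κ, P.ord f : ℤ) : ℝ) = ∑ᶠ P : Place k κ, (P.ord f : ℝ) :=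
    map_finsum (Int.castAddHom ℝ) (finite_ord_ne h f)
  rw [h2] at h4
  exact_mod_cast h4

/-- **Residues.** -/
theorem residue (h : IsCurveField k κ) (v : Place k κ) (u : κ) (hu : 0 ≤ v.ord u) :
    ∃ c : k, u = algebraMap k κ c ∨ 0 < v.ord (u - algebraMap k κ c) := by
  have := h.toFF
  have h1 : v.abv u ≤ 1 := by
    rcases eq_or_ne u 0 with rfl | hu0
    · simp
    · rw [v.abv_apply hu0, Real.exp_le_one_iff, neg_nonpos]
      exact_mod_cast hu
  obtain ⟨c, hc⟩ := v.isPlace_abv.exists_residue h1
  refine ⟨c, ?_⟩
  rcases eq_or_ne (u - algebraMap k κ c) 0 with h0 | h0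
  · exact Or.inl (sub_eq_zero.mp h0)
  · right
    rw [v.abv_apply h0, Real.exp_lt_one_iff, neg_lt_zero] at hc
    exact_mod_cast hc

end Place

end Seshadri
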