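import Mathlib

/-!
# Laurent polynomials in three variables

Support for the balancing condition of `MP_58f478_ag` (offer J5): evaluation of Laurent
polynomials at the points of the torus is injective, units are monomials.
-/

namespace CompJac

namespace Newton

open AddMonoidAlgebra

/-- Laurent polynomials in three variables -/
abbrev Lau (k : Type) [Field k] := AddMonoidAlgebra k (Fin 3 → ℤ)

variable {k : Type} [Field k]

/-- the character `h ↦ ∏ h_i ^ m_i` of the torus -/
def chi (m : Fin 3 → ℤ) : (Fin 3 → kˣ) →* k where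
  toFun h := ((∏ i, h i ^ m i : kˣ) : k)
  map_one' := by simp
  map_mul' h h' := by
    simp [mul_zpow, Finset.prod_mul_distrib]

lemma chi_apply (m : Fin 3 → ℤ) (h : Fin 3 → kˣ) : chi m h = ((∏ i, h i ^ m i : kˣ) : k) := rfl

lemma chi_add (m m' : Fin 3 → ℤ) (h : Fin 3 → kˣ) : chi (m + m') h = chi m h * chi m' h := by
  simp [chi_apply, zpow_add, Finset.prod_mul_distrib]

lemma chi_zero (h : Fin 3 → kˣ) : chi 0 h = 1 := by
  simp [chi_apply]

/-- evaluation of Laurent polynomials -/
noncomputable def ev (h : Fin 3 → kˣ) : Lau k →ₐ[k] k :=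
  AddMonoidAlgebra.lift k k (Fin 3 → ℤ)
    { toFun := fun m => chi m.toAdd h
      map_one' := chi_zero h
      map_mul' := fun m m' => chi_add _ _ h }

lemma ev_single (h : Fin 3 → kˣ) (m : Fin 3 → ℤ) (c : k) : ev h (single m c) = c * chi m h := by
  simp [ev, AddMonoidAlgebra.lift_single]

lemma ev_eq_sum (h : Fin 3 → kˣ) (f : Lau k) :
    ev h f = ∑ m ∈ f.coeff.support, f.coeff m * chi m h := by
  rw [ev, AddMonoidAlgebra.lift_apply]
  rfl

lemma exists_zpow_ne_one [Infinite k] {n : ℤ} (hn : n ≠ 0) : ∃ c : kˣ, c ^ n ≠ 1 := by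
  classical
  have key : ∀ n : ℕ, 0 < n → ∃ c : kˣ, c ^ n ≠ 1 := by
    intro n hn
    by_contra hcon
    push Not at hcon
    have hfin : (Set.univ : Set k).Finite := by
      refine ((insert (0 : k) (Polynomial.nthRoots n (1 : k)).toFinset).finite_toSet).subset ?_
      intro x _
      by_cases hx : x = 0
      · simp [hx]
      · have := hcon (Units.mk0 x hx)
        have h2 : x ^ n = 1 := by
          have := congrArg (fun u : kˣ => (u : k)) this
          simpa using this
        simp only [Finset.coe_insert, Set.mem_insert_iff, Finset.mem_coe, Multiset.mem_toFinset]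
        right
        rw [Polynomial.mem_nthRoots hn]
        exact h2
    exact Set.infinite_univ hfin
  obtain ⟨m, rfl | rfl⟩ := n.eq_nat_or_neg
  · obtain ⟨c, hc⟩ := key m (by omega)
    exact ⟨c, by rwa [zpow_natCast]⟩
  · obtain ⟨c, hc⟩ := key m (by omega)
    refine ⟨c, ?_⟩
    rw [zpow_neg, zpow_natCast]
    simpa using hc

lemma chi_injective [Infinite k] : Function.Injective (chi (k := k)) := by
  classical
  intro m m' h
  funext i
  by_contra hne
  obtain ⟨c, hc⟩ := exists_zpow_ne_one (k := k) (n := m i - m' i) (sub_ne_zero.2 hne)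
  have h1 := DFunLike.congr_fun h (Pi.mulSingle i c)
  rw [chi_apply, chi_apply] at h1
  have h2 := Units.ext h1
  have h3 : ∀ n : Fin 3 → ℤ, (∏ j, (Pi.mulSingle i c : Fin 3 → kˣ) j ^ n j) = c ^ n i := by
    intro n
    rw [Finset.prod_eq_single i]
    · simp
    · intro j _ hj
      simp [Pi.mulSingle_eq_of_ne hj]
    · simp
  rw [h3, h3] at h2
  apply hc
  rw [zpow_sub, h2, mul_inv_cancel]

lemma ev_injective [Infinite k] {f g : Lau k} (h : ∀ x, ev x f = ev x g) : f = g := by
  classical
  rw [← sub_eq_zero]
  set d := f - g with hd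
  have h0 : ∀ x, ev x d = 0 := by
    intro x
    rw [hd, map_sub, h, sub_self]
  have hli := linearIndependent_monoidHom (Fin 3 → kˣ) k
  have hli' := hli.comp (chi (k := k)) chi_injective
  rw [linearIndependent_iff'] at hli'
  have := hli' d.coeff.support (fun m => d.coeff m) (by
    funext x
    have := h0 x
    rw [ev_eq_sum] at this
    simpa [Finset.sum_apply] using this)
  ext m
  by_cases hm : m ∈ d.coeff.support
  · simpa using this m hm
  · simpa using hm

/-- units are monomials -/
lemma unit_eq_single {f g : Lau k} (h : f * g = 1) : ∃ m c, c ≠ 0 ∧ f = single m c := by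
  classical
  have hf : f.coeff.support.Nonempty := by
    rw [Finset.nonempty_iff_ne_empty]
    intro h0
    have : f = 0 := by
      ext m
      have : m ∉ f.coeff.support := by rw [h0]; simp
      simpa using this
    rw [this, zero_mul] at h
    exact zero_ne_one h
  have hg : g.coeff.support.Nonempty := by
    rw [Finset.nonempty_iff_ne_empty]
    intro h0
    have : g = 0 := by
      ext m
      have : m ∉ g.coeff.support := by rw [h0]; simp
      simpa using this
    rw [this, mul_zero] at h
    exact zero_ne_one h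
  have hcard : ¬ 1 < f.coeff.support.card * g.coeff.support.card := by
    intro hlt
    obtain ⟨p1, hp1, p2, hp2, hne, h1, h2⟩ := TwoUniqueSums.uniqueAdd_of_one_lt_card hlt
    rw [Finset.mem_product] at hp1 hp2
    have e1 := AddMonoidAlgebra.coeff_mul_add_of_uniqueAdd h1
    have e2 := AddMonoidAlgebra.coeff_mul_add_of_uniqueAdd h2
    have n1 : f.coeff p1.1 * g.coeff p1.2 ≠ 0 :=
      mul_ne_zero (Finsupp.mem_support_iff.1 hp1.1) (Finsupp.mem_support_iff.1 hp1.2)
    have n2 : f.coeff p2.1 * g.coeff p2.2 ≠ 0 :=
      mul_ne_zero (Finsupp.mem_support_iff.1 hp2.1) (Finsupp.mem_support_iff.1 hp2.2)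
    rw [← e1, h] at n1
    rw [← e2, h] at n2
    have z1 : p1.1 + p1.2 = 0 := by
      by_contra hz
      apply n1
      rw [AddMonoidAlgebra.one_def]
      simp [Finsupp.single_apply, Ne.symm hz]
    have z2 : p2.1 + p2.2 = 0 := by
      by_contra hz
      apply n2
      rw [AddMonoidAlgebra.one_def]
      simp [Finsupp.single_apply, Ne.symm hz]
    have := h1 hp2.1 hp2.2 (by rw [z1, z2])
    exact hne (Prod.ext this.1.symm this.2.symm)
  have hc : f.coeff.support.card = 1 := by
    have h1 := hf.card_pos
    have h2 := hg.card_pos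
    nlinarith
  obtain ⟨m, hm⟩ := Finset.card_eq_one.1 hc
  refine ⟨m, f.coeff m, ?_, ?_⟩
  · rw [← Finsupp.mem_support_iff, hm]
    simp
  · ext x
    by_cases hx : x = m
    · subst hx; simp
    · have : x ∉ f.coeff.support := by rw [hm]; simpa using hx
      have h3 : f.coeff x = 0 := by simpa using this
      rw [h3]
      simp [Finsupp.single_apply, Ne.symm hx]

lemma coeff_single_mul (m0 : Fin 3 → ℤ) (c : k) (f : Lau k) (m : Fin 3 → ℤ) :
    (single m0 c * f).coeff (m0 + m) = c * f.coeff m := by
  have : UniqueAdd (single m0 c : Lau k).coeff.support f.coeff.support m0 m := by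
    intro a b ha hb hab
    have ha' : a = m0 := by
      by_contra hne
      have := Finsupp.mem_support_iff.1 ha
      apply this
      simp [Finsupp.single_apply, Ne.symm hne]
    subst ha'
    exact ⟨rfl, add_left_cancel hab⟩
  rw [AddMonoidAlgebra.coeff_mul_add_of_uniqueAdd this]
  simp

/-- the union of the supports of the entries of a vector -/
noncomputable def supp {n : ℕ} (H : Fin n → Lau k) : Finset (Fin 3 → ℤ) := by
  classical
  exact Finset.univ.biUnion fun j => (H j).coeff.support

lemma mem_supp {n : ℕ} {H : Fin n → Lau k} {m : Fin 3 → ℤ} :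
    m ∈ supp H ↔ ∃ j, (H j).coeff m ≠ 0 := by
  classical
  simp [supp]

/-- Two unimodular vectors of Laurent polynomials which define the same map to the projective
space have the same support up to a translation. -/
theorem exists_translation [Infinite k] {n : ℕ} (H H' A A' : Fin n → Lau k)
    (hA : ∑ j, A j * H j = 1) (hA' : ∑ j, A' j * H' j = 1)
    (hp : ∀ h, ∃ c : k, ∀ j, ev h (H' j) = c * ev h (H j)) :
    ∃ m0 : Fin 3 → ℤ, ∀ m, m ∈ supp H ↔ m0 + m ∈ supp H' := by
  classical
  have hx : ∀ j l, H j * H' l = H l * H' j := by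
    intro j l
    apply ev_injective
    intro h
    obtain ⟨c, hc⟩ := hp h
    rw [map_mul, map_mul, hc, hc]
    ring
  have hg : ∀ l, H' l = (∑ j, A j * H' j) * H l := by
    intro l
    calc H' l = (∑ j, A j * H j) * H' l := by rw [hA, one_mul]
      _ = ∑ j, A j * (H j * H' l) := by rw [Finset.sum_mul]; simp [mul_assoc]
      _ = ∑ j, A j * (H l * H' j) := by simp_rw [hx]
      _ = (∑ j, A j * H' j) * H l := by
        rw [Finset.sum_mul]
        refine Finset.sum_congr rfl fun j _ => by ring
  have hg' : ∀ l, H l = (∑ j, A' j * H j) * H' l := by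
    intro l
    calc H l = (∑ j, A' j * H' j) * H l := by rw [hA', one_mul]
      _ = ∑ j, A' j * (H l * H' j) := by
        rw [Finset.sum_mul]
        refine Finset.sum_congr rfl fun j _ => by ring
      _ = ∑ j, A' j * (H j * H' l) := by simp_rw [hx l]
      _ = (∑ j, A' j * H j) * H' l := by
        rw [Finset.sum_mul]
        refine Finset.sum_congr rfl fun j _ => by ring
  set g := ∑ j, A j * H' j with hgdef
  set g' := ∑ j, A' j * H j with hg'def
  have hgg : g * g' = 1 := by
    have h1 : g * g' * 1 = 1 := by
      rw [← hA', Finset.mul_sum]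
      refine Finset.sum_congr rfl fun j _ => ?_
      calc g * g' * (A' j * H' j) = A' j * (g * (g' * H' j)) := by ring
        _ = A' j * (g * H j) := by rw [← hg' j]
        _ = A' j * H' j := by rw [← hg j]
    rwa [mul_one] at h1
  obtain ⟨m0, c, hc, hgs⟩ := unit_eq_single hgg
  refine ⟨m0, fun m => ?_⟩
  rw [mem_supp, mem_supp]
  refine exists_congr fun j => ?_
  rw [hg j, hgs, coeff_single_mul]
  simp [hc]

end Newton

end CompJac
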