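import Mathlib
import Pool.Agent.Helper38.CJNewtonA

/-!
# Charts of toric surfaces with rays `±a, ±b, ±c`, combinatorics of the balancing condition

Support for the balancing condition of `MP_58f478_ag` (offer J5).
-/

namespace CompJac

/-- a ray of the fan: `(s, true)` is the direction `h_s → 0`, `(s, false)` is `h_s → ∞` -/
abbrev Ray := Fin 3 × Bool

/-- `x` or `x⁻¹` -/
def pm {k : Type} [Field k] (b : Bool) (x : k) : k := if b then x else x⁻¹

/-- the point of the torus with coordinates `x`, `y` in the chart spanned by `r`, `r'` -/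
def chartPt {k : Type} [Field k] (r r' : Ray) (x y : k) : Fin 3 → k :=
  fun i => if i = r.1 then pm r.2 x else if i = r'.1 then pm r'.2 y else 1

/-- `r'` can follow `r` in the cyclic order `a, -c, b, -a, c, -b` (angle 60 or 120 degrees) -/
def Follows (r r' : Ray) : Prop := r' = (r.1 + 2, !r.2) ∨ r' = (r.1 + 1, r.2)

namespace Newton

/-- sign -/
def sg (b : Bool) : ℤ := if b then 1 else -1

@[simp] lemma sg_true : sg true = 1 := rfl
@[simp] lemma sg_false : sg false = -1 := rfl

instance (r r' : Ray) : Decidable (Follows r r') := by unfold Follows; infer_instance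

lemma Follows.ne {r r' : Ray} (h : Follows r r') : r.1 ≠ r'.1 := by
  revert r r'; decide

/-- the character which is the monomial `x^p y^q` in the chart spanned by `r`, `r'` -/
def mvec (r r' : Ray) (p q : ℤ) : Fin 3 → ℤ :=
  fun i => if i = r.1 then sg r.2 * p else if i = r'.1 then sg r'.2 * q
    else -(sg r.2 * p + sg r'.2 * q)

lemma mvec_sum {r r' : Ray} (h : r.1 ≠ r'.1) (p q : ℤ) :
    mvec r r' p q 0 + mvec r r' p q 1 + mvec r r' p q 2 = 0 := by
  obtain ⟨s, b⟩ := r
  obtain ⟨t, b'⟩ := r'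
  simp only at h
  fin_cases s <;> fin_cases t <;> simp [mvec] at h ⊢ <;> ring

lemma mvec_fst {r r' : Ray} (p q : ℤ) : sg r.2 * mvec r r' p q r.1 = p := by
  rcases r with ⟨s, _ | _⟩ <;> simp [mvec]

lemma mvec_snd {r r' : Ray} (h : r.1 ≠ r'.1) (p q : ℤ) : sg r'.2 * mvec r r' p q r'.1 = q := by
  rcases r' with ⟨s, _ | _⟩ <;> simp [mvec, Ne.symm h]

/-- value of a character on a ray -/
def val (m : Fin 3 → ℤ) (r : Ray) : ℤ := sg r.2 * m r.1

lemma val_mvec_fst {r r' : Ray} (p q : ℤ) : val (mvec r r' p q) r = p := mvec_fst p q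

lemma val_mvec_snd {r r' : Ray} (h : r.1 ≠ r'.1) (p q : ℤ) : val (mvec r r' p q) r' = q :=
  mvec_snd h p q

lemma val_add (m m' : Fin 3 → ℤ) (r : Ray) : val (m + m') r = val m r + val m' r := by
  simp [val, mul_add]

/-! ### combinatorics -/

section comb

variable {w : Ray → ℤ} {S : Finset (Fin 3 → ℤ)}

lemma final_x (hsum : ∀ m ∈ S, m 0 + m 1 + m 2 = 0) (hle : ∀ m ∈ S, ∀ r, w r ≤ val m r)
    (hatt : ∀ r, ∃ m ∈ S, val m r = w r)
    {r₀ r r' : Ray} (h0 : Follows r₀ r) (h1 : Follows r r') {P₀ P : Fin 3 → ℤ}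
    (hP₀ : P₀ ∈ S) (hP : P ∈ S) (e0 : val P₀ r₀ = w r₀) (e0' : val P₀ r = w r)
    (e1 : val P r = w r) (e1' : val P r' = w r') :
    (∀ m ∈ S, val m r = w r →
      val m r' - w r' ≤ w r - w (r.1 + 1, !r.2) - w (r.1 + 2, !r.2)) ∧
    (∃ m ∈ S, val m r = w r ∧
      val m r' - w r' = w r - w (r.1 + 1, !r.2) - w (r.1 + 2, !r.2)) := by
  have a1 := hle P₀ hP₀
  have a2 := hle P hP
  have b1 := hsum P₀ hP₀
  have b2 := hsum P hP
  obtain ⟨Q, hQ, hQ'⟩ := hatt (r.1 + 1, !r.2)
  obtain ⟨R, hR, hR'⟩ := hatt (r.1 + 2, !r.2)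
  have a4 := hle Q hQ
  have a5 := hle R hR
  have b4 := hsum Q hQ
  have b5 := hsum R hR
  have key : ∀ m ∈ S, val m r = w r →
      (val m r' - w r' ≤ w r - w (r.1 + 1, !r.2) - w (r.1 + 2, !r.2)) ∧
      (val P₀ r' - w r' = w r - w (r.1 + 1, !r.2) - w (r.1 + 2, !r.2)) := by
    intro m hm hmr
    have a3 := hle m hm
    have b3 := hsum m hm
    have c1 := a1 (0, true); have c2 := a1 (0, false); have c3 := a1 (1, true)
    have c4 := a1 (1, false); have c5 := a1 (2, true); have c6 := a1 (2, false)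
    have d1 := a2 (0, true); have d2 := a2 (0, false); have d3 := a2 (1, true)
    have d4 := a2 (1, false); have d5 := a2 (2, true); have d6 := a2 (2, false)
    have f1 := a3 (0, true); have f2 := a3 (0, false); have f3 := a3 (1, true)
    have f4 := a3 (1, false); have f5 := a3 (2, true); have f6 := a3 (2, false)
    have g1 := a4 (0, true); have g2 := a4 (0, false); have g3 := a4 (1, true)
    have g4 := a4 (1, false); have g5 := a4 (2, true); have g6 := a4 (2, false)
    have k1 := a5 (0, true); have k2 := a5 (0, false); have k3 := a5 (1, true)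
    have k4 := a5 (1, false); have k5 := a5 (2, true); have k6 := a5 (2, false)
    clear a1 a2 a3 a4 a5 hle hsum hatt
    obtain ⟨s, b⟩ := r₀
    rcases h0 with rfl | rfl <;> rcases h1 with rfl | rfl <;>
      fin_cases s <;> rcases b with _ | _ <;>
      simp only [val, sg_true, sg_false, Fin.zero_eta, Fin.isValue, Fin.mk_one,
        Fin.reduceFinMk, Fin.reduceAdd, Bool.not_true, Bool.not_false] at * <;> omega
  refine ⟨fun m hm hmr => (key m hm hmr).1, P₀, hP₀, e0', (key P₀ hP₀ e0').2⟩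

lemma final_y (hsum : ∀ m ∈ S, m 0 + m 1 + m 2 = 0) (hle : ∀ m ∈ S, ∀ r, w r ≤ val m r)
    (hatt : ∀ r, ∃ m ∈ S, val m r = w r)
    {r r' r'' : Ray} (h0 : Follows r r') (h1 : Follows r' r'') {P P' : Fin 3 → ℤ}
    (hP : P ∈ S) (hP' : P' ∈ S) (e0 : val P r = w r) (e0' : val P r' = w r')
    (e1 : val P' r' = w r') (e1' : val P' r'' = w r'') :
    (∀ m ∈ S, val m r' = w r' →
      val m r - w r ≤ w r' - w (r'.1 + 1, !r'.2) - w (r'.1 + 2, !r'.2)) ∧
    (∃ m ∈ S, val m r' = w r' ∧
      val m r - w r = w r' - w (r'.1 + 1, !r'.2) - w (r'.1 + 2, !r'.2)) := by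
  have a1 := hle P hP
  have a2 := hle P' hP'
  have b1 := hsum P hP
  have b2 := hsum P' hP'
  obtain ⟨Q, hQ, hQ'⟩ := hatt (r'.1 + 1, !r'.2)
  obtain ⟨R, hR, hR'⟩ := hatt (r'.1 + 2, !r'.2)
  have a4 := hle Q hQ
  have a5 := hle R hR
  have b4 := hsum Q hQ
  have b5 := hsum R hR
  have key : ∀ m ∈ S, val m r' = w r' →
      (val m r - w r ≤ w r' - w (r'.1 + 1, !r'.2) - w (r'.1 + 2, !r'.2)) ∧
      (val P' r - w r = w r' - w (r'.1 + 1, !r'.2) - w (r'.1 + 2, !r'.2)) := by
    intro m hm hmr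
    have a3 := hle m hm
    have b3 := hsum m hm
    have c1 := a1 (0, true); have c2 := a1 (0, false); have c3 := a1 (1, true)
    have c4 := a1 (1, false); have c5 := a1 (2, true); have c6 := a1 (2, false)
    have d1 := a2 (0, true); have d2 := a2 (0, false); have d3 := a2 (1, true)
    have d4 := a2 (1, false); have d5 := a2 (2, true); have d6 := a2 (2, false)
    have f1 := a3 (0, true); have f2 := a3 (0, false); have f3 := a3 (1, true)
    have f4 := a3 (1, false); have f5 := a3 (2, true); have f6 := a3 (2, false)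
    have g1 := a4 (0, true); have g2 := a4 (0, false); have g3 := a4 (1, true)
    have g4 := a4 (1, false); have g5 := a4 (2, true); have g6 := a4 (2, false)
    have k1 := a5 (0, true); have k2 := a5 (0, false); have k3 := a5 (1, true)
    have k4 := a5 (1, false); have k5 := a5 (2, true); have k6 := a5 (2, false)
    clear a1 a2 a3 a4 a5 hle hsum hatt
    obtain ⟨s, b⟩ := r
    rcases h0 with rfl | rfl <;> rcases h1 with rfl | rfl <;>
      fin_cases s <;> rcases b with _ | _ <;>
      simp only [val, sg_true, sg_false, Fin.zero_eta, Fin.isValue, Fin.mk_one,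
        Fin.reduceFinMk, Fin.reduceAdd, Bool.not_true, Bool.not_false] at * <;> omega
  refine ⟨fun m hm hmr => (key m hm hmr).1, P', hP', e1, (key P' hP' e1).2⟩

lemma final_missing (hsum : ∀ m ∈ S, m 0 + m 1 + m 2 = 0) (hle : ∀ m ∈ S, ∀ r, w r ≤ val m r)
    (hatt : ∀ r, ∃ m ∈ S, val m r = w r) (s : Fin 3) (b : Bool) {P : Fin 3 → ℤ}
    (hP : P ∈ S) (e0 : val P (s + 1, !b) = w (s + 1, !b))
    (e1 : val P (s + 2, !b) = w (s + 2, !b)) :
    0 = w (s, b) - w (s + 1, !b) - w (s + 2, !b) := by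
  obtain ⟨Q, hQ, hQ'⟩ := hatt (s, b)
  have a1 := hle P hP
  have a2 := hle Q hQ
  have b1 := hsum P hP
  have b2 := hsum Q hQ
  have c1 := a1 (0, true); have c2 := a1 (0, false); have c3 := a1 (1, true)
  have c4 := a1 (1, false); have c5 := a1 (2, true); have c6 := a1 (2, false)
  have d1 := a2 (0, true); have d2 := a2 (0, false); have d3 := a2 (1, true)
  have d4 := a2 (1, false); have d5 := a2 (2, true); have d6 := a2 (2, false)
  clear a1 a2 hle hsum hatt
  fin_cases s <;> rcases b with _ | _ <;>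
      simp only [val, sg_true, sg_false, Fin.zero_eta, Fin.isValue, Fin.mk_one,
        Fin.reduceFinMk, Fin.reduceAdd, Bool.not_true, Bool.not_false] at * <;> omega

/-- position in the cyclic order -/
def pos (r : Ray) : ℕ := 2 * r.1 + if r.2 then 0 else 3

/-- position relative to `r₀` -/
def rpos (r₀ r : Ray) : ℕ := (pos r + 12 - pos r₀) % 6

lemma follows_rpos : ∀ r₀ r r' : Ray, Follows r r' → r ≠ r₀ → r' ≠ r₀ →
    rpos r₀ r < rpos r₀ r' ∨ (r = (r₀.1 + 1, !r₀.2) ∧ r' = (r₀.1 + 2, !r₀.2)) := by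
  decide

lemma exists_jump {m : ℕ} [NeZero m] (r : ZMod m → Ray) (hr : ∀ i, Follows (r i) (r (i + 1)))
    (r₀ : Ray) (h : ∀ i, r i ≠ r₀) :
    ∃ i, r i = (r₀.1 + 1, !r₀.2) ∧ r (i + 1) = (r₀.1 + 2, !r₀.2) := by
  obtain ⟨i, hi⟩ := Finite.exists_max (fun i => rpos r₀ (r i))
  rcases follows_rpos r₀ (r i) (r (i + 1)) (hr i) (h i) (h (i + 1)) with h1 | h1
  · exact absurd (hi (i + 1)) (not_le.2 h1)
  · exact ⟨i, h1⟩

end comb

/-! ### degrees -/

/-- the degree of a vector of polynomials -/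
noncomputable def _root_.CompJac.vdeg {k : Type} [Field k] {n : ℕ} (f : Fin n → Polynomial k) : ℕ :=
  Finset.univ.sup fun i => (f i).natDegree

lemma vdeg_eq_of {k : Type} [Field k] {n : ℕ} (f : Fin n → Polynomial k) (D : ℤ)
    (h1 : ∀ j (q : ℕ), (f j).coeff q ≠ 0 → (q : ℤ) ≤ D)
    (h2 : ∃ j, ∃ q : ℕ, (f j).coeff q ≠ 0 ∧ (q : ℤ) = D) : (vdeg f : ℤ) = D := by
  obtain ⟨j, q, hq, rfl⟩ := h2
  norm_cast
  apply le_antisymm
  · refine Finset.sup_le fun l _ => ?_
    rw [Polynomial.natDegree_le_iff_coeff_eq_zero]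
    intro N hN
    by_contra hne
    have := h1 l N hne
    omega
  · exact le_trans (Polynomial.le_natDegree_of_ne_zero hq)
      (Finset.le_sup (f := fun i => (f i).natDegree) (Finset.mem_univ j))

/-- restriction of a polynomial in `x, y` to the line `x = 0` -/
noncomputable def _root_.CompJac.onX0 {k : Type} [Field k] (F : MvPolynomial (Fin 2) k) :
    Polynomial k :=
  MvPolynomial.aeval ![0, Polynomial.X] F

/-- restriction of a polynomial in `x, y` to the line `y = 0` -/
noncomputable def _root_.CompJac.onY0 {k : Type} [Field k] (F : MvPolynomial (Fin 2) k) :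
    Polynomial k :=
  MvPolynomial.aeval ![Polynomial.X, 0] F

/-- exponents -/
noncomputable def ex (p q : ℕ) : Fin 2 →₀ ℕ := Finsupp.single 0 p + Finsupp.single 1 q

@[simp] lemma ex_zero (p q : ℕ) : ex p q 0 = p := by simp [ex]
@[simp] lemma ex_one (p q : ℕ) : ex p q 1 = q := by simp [ex]

lemma ex_eta (e : Fin 2 →₀ ℕ) : ex (e 0) (e 1) = e := by
  ext i
  fin_cases i <;> simp

lemma ex_inj {p q : ℕ} {e : Fin 2 →₀ ℕ} : e = ex p q ↔ e 0 = p ∧ e 1 = q := by
  constructor
  · rintro rfl; simp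
  · rintro ⟨rfl, rfl⟩; rw [ex_eta]

lemma coeff_onX0 {k : Type} [Field k] (F : MvPolynomial (Fin 2) k) (q : ℕ) :
    (onX0 F).coeff q = F.coeff (ex 0 q) := by
  induction F using MvPolynomial.induction_on' with
  | monomial u a =>
    rw [onX0, MvPolynomial.aeval_monomial, MvPolynomial.coeff_monomial, Finsupp.prod_fintype _ _
      (by simp)]
    rw [Fin.prod_univ_two]
    simp only [Matrix.cons_val_zero, Matrix.cons_val_one]
    by_cases h0 : u 0 = 0
    · rw [h0, pow_zero, one_mul, Polynomial.algebraMap_apply, Algebra.algebraMap_self,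
        RingHom.id_apply, Polynomial.coeff_C_mul, Polynomial.coeff_X_pow]
      by_cases h1 : q = u 1
      · rw [if_pos h1, if_pos (ex_inj.2 ⟨h0, h1.symm⟩), mul_one]
      · rw [if_neg h1, if_neg (fun h => h1 (ex_inj.1 h).2.symm), mul_zero]
    · rw [zero_pow h0, zero_mul, mul_zero, Polynomial.coeff_zero,
        if_neg (fun h => h0 (ex_inj.1 h).1)]
  | add p q hp hq =>
    rw [onX0, map_add, Polynomial.coeff_add, MvPolynomial.coeff_add, ← hp, ← hq]
    rfl

lemma coeff_onY0 {k : Type} [Field k] (F : MvPolynomial (Fin 2) k) (q : ℕ) :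
    (onY0 F).coeff q = F.coeff (ex q 0) := by
  induction F using MvPolynomial.induction_on' with
  | monomial u a =>
    rw [onY0, MvPolynomial.aeval_monomial, MvPolynomial.coeff_monomial, Finsupp.prod_fintype _ _
      (by simp)]
    rw [Fin.prod_univ_two]
    simp only [Matrix.cons_val_zero, Matrix.cons_val_one]
    by_cases h0 : u 1 = 0
    · rw [h0, pow_zero, mul_one, Polynomial.algebraMap_apply, Algebra.algebraMap_self,
        RingHom.id_apply, Polynomial.coeff_C_mul, Polynomial.coeff_X_pow]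
      by_cases h1 : q = u 0
      · rw [if_pos h1, if_pos (ex_inj.2 ⟨h1.symm, h0⟩), mul_one]
      · rw [if_neg h1, if_neg (fun h => h1 (ex_inj.1 h).1.symm), mul_zero]
    · rw [zero_pow h0, mul_zero, mul_zero, Polynomial.coeff_zero,
        if_neg (fun h => h0 (ex_inj.1 h).2)]
  | add p q hp hq =>
    rw [onY0, map_add, Polynomial.coeff_add, MvPolynomial.coeff_add, ← hp, ← hq]
    rfl

end Newton

end CompJac
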