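import Mathlib
import Pool.Agent.Helper38.CJNewtonB

/-!
# The balancing condition (offer J5 for `MP_58f478_ag`)

A morphism from a toric surface whose rays are among `±a, ±b, ±c` to a projective space has
degrees on the boundary curves which come from a Newton polygon.
-/

namespace CompJac

namespace Newton

open AddMonoidAlgebra

variable {k : Type} [Field k]

/-- exponents in the chart spanned by `r`, `r'` to characters -/
def mhom (r r' : Ray) : (Fin 2 →₀ ℕ) →+ (Fin 3 → ℤ) where
  toFun e := mvec r r' (e 0) (e 1)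
  map_zero' := by
    funext i
    simp [mvec]
  map_add' e e' := by
    funext i
    simp only [mvec, Finsupp.add_apply, Nat.cast_add, Pi.add_apply]
    split_ifs <;> ring

lemma mhom_apply (r r' : Ray) (e : Fin 2 →₀ ℕ) : mhom r r' e = mvec r r' (e 0) (e 1) := rfl

lemma mhom_injective {r r' : Ray} (h : r.1 ≠ r'.1) : Function.Injective (mhom r r') := by
  intro e e' hee
  rw [mhom_apply, mhom_apply] at hee
  have h0 := congrArg (fun m => val m r) hee
  have h1 := congrArg (fun m => val m r') hee
  simp only [val_mvec_fst] at h0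
  simp only [val_mvec_snd h] at h1
  ext i
  fin_cases i
  · simpa using h0
  · simpa using h1

/-- polynomials on the chart are Laurent polynomials on the torus -/
noncomputable def toLau (r r' : Ray) : MvPolynomial (Fin 2) k →ₐ[k] Lau k :=
  AddMonoidAlgebra.mapDomainAlgHom k k (mhom r r')

lemma toLau_coeff {r r' : Ray} (h : r.1 ≠ r'.1) (F : MvPolynomial (Fin 2) k) (e : Fin 2 →₀ ℕ) :
    (toLau r r' F).coeff (mhom r r' e) = F.coeff e :=
  Finsupp.mapDomain_apply (mhom_injective h) _ _

lemma toLau_coeff_of_notMem (r r' : Ray) (F : MvPolynomial (Fin 2) k) (m : Fin 3 → ℤ)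
    (hm : m ∉ Set.range (mhom r r')) : (toLau r r' F).coeff m = 0 :=
  Finsupp.mapDomain_of_notMem_range _ _ hm

lemma ev_toLau (r r' : Ray) (h : Fin 3 → kˣ) (F : MvPolynomial (Fin 2) k) :
    ev h (toLau r r' F) =
      MvPolynomial.eval ![chi (mvec r r' 1 0) h, chi (mvec r r' 0 1) h] F := by
  have : (ev h).comp (toLau r r') =
      MvPolynomial.aeval ![chi (mvec r r' 1 0) h, chi (mvec r r' 0 1) h] := by
    apply MvPolynomial.algHom_ext
    intro i
    have hX : (MvPolynomial.X i : MvPolynomial (Fin 2) k) = single (Finsupp.single i 1) 1 := rfl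
    rw [AlgHom.comp_apply, MvPolynomial.aeval_X, hX]
    have h2 : toLau r r' (single (Finsupp.single i 1) 1 : MvPolynomial (Fin 2) k) =
        single (mhom r r' (Finsupp.single i 1)) 1 := by
      rw [toLau]
      exact AddMonoidAlgebra.mapDomain_single
    rw [h2, ev_single, one_mul, mhom_apply]
    fin_cases i <;> simp
  have h3 := DFunLike.congr_fun this F
  rw [AlgHom.comp_apply] at h3
  rw [h3]
  rfl

lemma chartPt_torus {r r' : Ray} (hr : r.1 ≠ r'.1) (h : Fin 3 → kˣ) :
    ∃ c : k, c ≠ 0 ∧ ∀ i, (h i : k) =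
      c * chartPt r r' (chi (mvec r r' 1 0) h) (chi (mvec r r' 0 1) h) i := by
  obtain ⟨s, b⟩ := r
  obtain ⟨t, b'⟩ := r'
  simp only at hr
  have h0 := (h 0).ne_zero
  have h1 := (h 1).ne_zero
  have h2 := (h 2).ne_zero
  have hthird : ∃ u, u ≠ s ∧ u ≠ t := by revert s t; decide
  obtain ⟨u, hu, hu'⟩ := hthird
  refine ⟨h u, (h u).ne_zero, fun i => ?_⟩
  fin_cases s <;> fin_cases t <;> fin_cases u <;> simp at hr hu hu' <;>
    rcases b with _ | _ <;> rcases b' with _ | _ <;> fin_cases i <;>
    simp [chartPt, chi_apply, mvec, Fin.prod_univ_three, pm, h0, h1, h2] <;> field_simp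

lemma exists_bezout [IsAlgClosed k] {N : ℕ} (F : Fin (N + 1) → MvPolynomial (Fin 2) k)
    (hF : ∀ a, (fun j => MvPolynomial.eval a (F j)) ≠ 0) :
    ∃ A : Fin (N + 1) → MvPolynomial (Fin 2) k, ∑ j, A j * F j = 1 := by
  have h1 : (1 : MvPolynomial (Fin 2) k) ∈ Ideal.span (Set.range F) := by
    rw [← Ideal.eq_top_iff_one, ← Ideal.radical_eq_top,
      ← MvPolynomial.vanishingIdeal_zeroLocus_eq_radical (K := k)]
    have h2 : MvPolynomial.zeroLocus k (Ideal.span (Set.range F)) = ∅ := by
      rw [Set.eq_empty_iff_forall_notMem]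
      intro a ha
      apply hF a
      funext j
      have := (MvPolynomial.mem_zeroLocus_iff.1 ha) (F j) (Ideal.subset_span ⟨j, rfl⟩)
      simpa using this
    rw [h2, MvPolynomial.vanishingIdeal_empty]
  rw [Ideal.mem_span_range_iff_exists_fun] at h1
  exact h1

/-- the data of a chart with respect to the common support `S` -/
lemma chart_data [IsAlgClosed k] {N m : ℕ} [NeZero m] (r : ZMod m → Ray)
    (hr : ∀ i, Follows (r i) (r (i + 1)))
    (F : ZMod m → Fin (N + 1) → MvPolynomial (Fin 2) k)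
    (hF : ∀ i a, (fun j => MvPolynomial.eval a (F i j)) ≠ 0)
    (G : (Fin 3 → k) → Projectivization k (Fin (N + 1) → k))
    (hG : ∀ (h : Fin 3 → k) (c : k), (∀ i, h i ≠ 0) → c ≠ 0 → G (fun i => c * h i) = G h)
    (hFG : ∀ i (x y : k), x ≠ 0 → y ≠ 0 →
      Projectivization.mk k _ (hF i ![x, y]) = G (chartPt (r i) (r (i + 1)) x y)) :
    ∃ S : Finset (Fin 3 → ℤ), S.Nonempty ∧ (∀ m ∈ S, m 0 + m 1 + m 2 = 0) ∧
      ∀ i, ∃ c1 c2 : ℤ,
        (∀ p q : ℕ, (∃ j, (F i j).coeff (ex p q) ≠ 0) →
          ∃ m ∈ S, (p : ℤ) = val m (r i) - c1 ∧ (q : ℤ) = val m (r (i + 1)) - c2) ∧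
        (∀ m ∈ S, ∃ p q : ℕ, (∃ j, (F i j).coeff (ex p q) ≠ 0) ∧
          (p : ℤ) = val m (r i) - c1 ∧ (q : ℤ) = val m (r (i + 1)) - c2) := by
  have : Infinite k := IsAlgClosed.instInfinite
  choose A hA using fun i => exists_bezout (F i) (hF i)
  have hne : ∀ i, (r i).1 ≠ (r (i + 1)).1 := fun i => Follows.ne (hr i)
  let H : ZMod m → Fin (N + 1) → Lau k := fun i j => toLau (r i) (r (i + 1)) (F i j)
  let B : ZMod m → Fin (N + 1) → Lau k := fun i j => toLau (r i) (r (i + 1)) (A i j)
  have hB : ∀ i, ∑ j, B i j * H i j = 1 := by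
    intro i
    simp only [B, H]
    rw [← map_one (toLau (k := k) (r i) (r (i + 1))), ← hA i, map_sum]
    simp
  let X : ZMod m → (Fin 3 → kˣ) → Fin 2 → k := fun i h =>
    ![chi (mvec (r i) (r (i + 1)) 1 0) h, chi (mvec (r i) (r (i + 1)) 0 1) h]
  have hev : ∀ i h j, ev h (H i j) = MvPolynomial.eval (X i h) (F i j) := fun i h j =>
    ev_toLau _ _ _ _
  have hpt : ∀ i h, Projectivization.mk k _ (hF i (X i h)) = G (fun i => (h i : k)) := by
    intro i h
    obtain ⟨c, hc, hc'⟩ := chartPt_torus (hne i) h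
    have hx : chi (mvec (r i) (r (i + 1)) 1 0) h ≠ 0 := by
      rw [chi_apply]; exact Units.ne_zero _
    have hy : chi (mvec (r i) (r (i + 1)) 0 1) h ≠ 0 := by
      rw [chi_apply]; exact Units.ne_zero _
    rw [hFG i _ _ hx hy, ← hG _ c _ hc]
    · congr 1
      funext l
      exact (hc' l).symm
    · intro l h0
      have := hc' l
      rw [h0, mul_zero] at this
      exact (h l).ne_zero this
  have htrans : ∀ i, ∃ m0 : Fin 3 → ℤ, ∀ m, m ∈ supp (H 0) ↔ m0 + m ∈ supp (H i) := by
    intro i
    apply exists_translation (H 0) (H i) (B 0) (B i) (hB 0) (hB i)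
    intro h
    have := (hpt i h).trans (hpt 0 h).symm
    rw [Projectivization.mk_eq_mk_iff] at this
    obtain ⟨c, hc⟩ := this
    refine ⟨c, fun j => ?_⟩
    rw [hev, hev]
    have := congrFun hc j
    simp only [Pi.smul_apply, Units.smul_def, smul_eq_mul] at this
    exact this.symm
  have hsuppH : ∀ i m, m ∈ supp (H i) ↔ ∃ p q : ℕ, m = mvec (r i) (r (i + 1)) p q ∧
      ∃ j, (F i j).coeff (ex p q) ≠ 0 := by
    intro i m
    rw [mem_supp]
    constructor
    · rintro ⟨j, hj⟩
      by_cases hm : m ∈ Set.range (mhom (r i) (r (i + 1)))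
      · obtain ⟨e, rfl⟩ := hm
        refine ⟨e 0, e 1, mhom_apply _ _ _, j, ?_⟩
        rw [ex_eta]
        rwa [← toLau_coeff (hne i)]
      · exact absurd (toLau_coeff_of_notMem _ _ _ _ hm) hj
    · rintro ⟨p, q, rfl, j, hj⟩
      refine ⟨j, ?_⟩
      rw [← toLau_coeff (hne i), mhom_apply, ex_zero, ex_one] at hj
      exact hj
  refine ⟨supp (H 0), ?_, ?_, ?_⟩
  · by_contra hemp
    rw [Finset.not_nonempty_iff_eq_empty] at hemp
    have h1 := hB 0
    have h2 : ∀ j, H 0 j = 0 := by
      intro j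
      ext m
      by_contra hne
      have : m ∈ supp (H 0) := mem_supp.2 ⟨j, hne⟩
      rw [hemp] at this
      simp at this
    simp [h2] at h1
  · intro m hm
    obtain ⟨p, q, rfl, -⟩ := (hsuppH 0 m).1 hm
    exact mvec_sum (hne 0) _ _
  · intro i
    obtain ⟨m0, hm0⟩ := htrans i
    refine ⟨- val m0 (r i), - val m0 (r (i + 1)), ?_, ?_⟩
    · intro p q hpq
      have h1 : mvec (r i) (r (i + 1)) p q ∈ supp (H i) := (hsuppH i _).2 ⟨p, q, rfl, hpq⟩
      refine ⟨mvec (r i) (r (i + 1)) p q - m0, ?_, ?_, ?_⟩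
      · rw [hm0]
        simpa using h1
      · have := val_mvec_fst (r := r i) (r' := r (i + 1)) p q
        have h2 := val_add (mvec (r i) (r (i + 1)) p q - m0) m0 (r i)
        rw [sub_add_cancel] at h2
        omega
      · have := val_mvec_snd (hne i) p q
        have h2 := val_add (mvec (r i) (r (i + 1)) p q - m0) m0 (r (i + 1))
        rw [sub_add_cancel] at h2
        omega
    · intro m hm
      obtain ⟨p, q, hpq, hj⟩ := (hsuppH i _).1 ((hm0 m).1 hm)
      refine ⟨p, q, hj, ?_, ?_⟩
      · have := val_mvec_fst (r := r i) (r' := r (i + 1)) p q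
        have h2 := val_add m0 m (r i)
        rw [hpq] at h2
        omega
      · have := val_mvec_snd (hne i) p q
        have h2 := val_add m0 m (r (i + 1))
        rw [hpq] at h2
        omega

end Newton

open Newton

/-- The balancing condition. `r : ZMod m → Ray` is the cyclic list of the rays of a complete
smooth fan (`m` rays, consecutive ones following each other); `F i` are the coordinates of a
morphism to `ℙ^N` on the chart spanned by `r i`, `r (i+1)`; `G` is the morphism on the torus. -/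
theorem balancing {k : Type} [Field k] [IsAlgClosed k] {N m : ℕ} [NeZero m] (r : ZMod m → Ray)
    (hr : ∀ i, Follows (r i) (r (i + 1)))
    (F : ZMod m → Fin (N + 1) → MvPolynomial (Fin 2) k)
    (hF : ∀ i a, (fun j => MvPolynomial.eval a (F i j)) ≠ 0)
    (G : (Fin 3 → k) → Projectivization k (Fin (N + 1) → k))
    (hG : ∀ (h : Fin 3 → k) (c : k), (∀ i, h i ≠ 0) → c ≠ 0 → G (fun i => c * h i) = G h)
    (hFG : ∀ i (x y : k), x ≠ 0 → y ≠ 0 →
      Projectivization.mk k _ (hF i ![x, y]) = G (chartPt (r i) (r (i + 1)) x y)) :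
    ∃ w : Ray → ℤ,
      (∀ i, (vdeg fun j => onX0 (F i j) : ℤ) =
        w (r i) - w ((r i).1 + 1, !(r i).2) - w ((r i).1 + 2, !(r i).2)) ∧
      (∀ i, (vdeg fun j => onY0 (F i j) : ℤ) =
        w (r (i + 1)) - w ((r (i + 1)).1 + 1, !(r (i + 1)).2) -
          w ((r (i + 1)).1 + 2, !(r (i + 1)).2)) ∧
      (∀ (s : Fin 3) (b : Bool), (∀ i, r i ≠ (s, b)) →
        0 = w (s, b) - w (s + 1, !b) - w (s + 2, !b)) := by
  classical
  obtain ⟨S, hS, hsum, hch⟩ := chart_data r hr F hF G hG hFG
  choose c1 c2 h1 h2 using hch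
  let w : Ray → ℤ := fun ρ => S.inf' hS fun m => val m ρ
  have hle : ∀ m ∈ S, ∀ ρ, w ρ ≤ val m ρ := fun m hm ρ => Finset.inf'_le _ hm
  have hatt : ∀ ρ, ∃ m ∈ S, val m ρ = w ρ := by
    intro ρ
    obtain ⟨m, hm, h⟩ := Finset.exists_mem_eq_inf' hS fun m => val m ρ
    exact ⟨m, hm, h.symm⟩
  have h0 : ∀ i, ∃ j, (F i j).coeff (ex 0 0) ≠ 0 := by
    intro i
    by_contra hcon
    push Not at hcon
    apply hF i 0
    funext j
    have h3 : ex 0 0 = 0 := by ext l; simp [ex]
    have := hcon j
    rw [h3] at this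
    rw [MvPolynomial.eval_zero, MvPolynomial.constantCoeff_eq, this]
    rfl
  have hP : ∀ i, ∃ P ∈ S, val P (r i) = w (r i) ∧ val P (r (i + 1)) = w (r (i + 1)) ∧
      c1 i = w (r i) ∧ c2 i = w (r (i + 1)) := by
    intro i
    obtain ⟨P, hP, e1, e2⟩ := h1 i 0 0 (h0 i)
    have l1 : c1 i = w (r i) := by
      apply le_antisymm
      · refine Finset.le_inf' _ _ fun m hm => ?_
        obtain ⟨p, q, -, e3, e4⟩ := h2 i m hm
        omega
      · have := hle P hP (r i)
        omega
    have l2 : c2 i = w (r (i + 1)) := by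
      apply le_antisymm
      · refine Finset.le_inf' _ _ fun m hm => ?_
        obtain ⟨p, q, -, e3, e4⟩ := h2 i m hm
        omega
      · have := hle P hP (r (i + 1))
        omega
    exact ⟨P, hP, by omega, by omega, l1, l2⟩
  choose P hPS hPr hPr' hc1 hc2 using hP
  refine ⟨w, fun i => ?_, fun i => ?_, fun s b hsb => ?_⟩
  · have e := sub_add_cancel i 1
    have hfol : Follows (r (i - 1)) (r i) := by
      have := hr (i - 1)
      rwa [e] at this
    have hPi : val (P (i - 1)) (r i) = w (r i) := by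
      have := hPr' (i - 1)
      rwa [e] at this
    obtain ⟨f1, m, hm, f2, f3⟩ := final_x hsum hle hatt hfol (hr i) (hPS (i - 1)) (hPS i)
      (hPr (i - 1)) hPi (hPr i) (hPr' i)
    apply vdeg_eq_of
    · intro j q hq
      rw [coeff_onX0] at hq
      obtain ⟨m', hm', g1, g2⟩ := h1 i 0 q ⟨j, hq⟩
      have := f1 m' hm' (by rw [hc1] at g1; push_cast at g1; omega)
      rw [hc2] at g2
      omega
    · obtain ⟨p, q, ⟨j, hj⟩, g1, g2⟩ := h2 i m hm
      have hp : p = 0 := by rw [hc1] at g1; omega
      subst hp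
      refine ⟨j, q, by rwa [coeff_onX0], ?_⟩
      rw [hc2] at g2
      omega
  · obtain ⟨f1, m, hm, f2, f3⟩ := final_y hsum hle hatt (hr i) (hr (i + 1)) (hPS i) (hPS (i + 1))
      (hPr i) (hPr' i) (hPr (i + 1)) (hPr' (i + 1))
    apply vdeg_eq_of
    · intro j q hq
      rw [coeff_onY0] at hq
      obtain ⟨m', hm', g1, g2⟩ := h1 i q 0 ⟨j, hq⟩
      have := f1 m' hm' (by rw [hc2] at g2; push_cast at g2; omega)
      rw [hc1] at g1
      omega
    · obtain ⟨p, q, ⟨j, hj⟩, g1, g2⟩ := h2 i m hm
      have hp : q = 0 := by rw [hc2] at g2; omega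
      subst hp
      refine ⟨j, p, by rwa [coeff_onY0], ?_⟩
      rw [hc1] at g1
      omega
  · obtain ⟨i, e1, e2⟩ := exists_jump r hr (s, b) hsb
    have f1 := hPr i
    have f2 := hPr' i
    rw [e1] at f1
    rw [e2] at f2
    exact final_missing hsum hle hatt s b (hPS i) f1 f2

/-- the ideal generated by polynomials without common zero -/
lemma Newton.exists_bezout_one {k : Type} [Field k] [IsAlgClosed k] {N : ℕ}
    (f : Fin (N + 1) → Polynomial k) (hf : ∀ y, (fun j => (f j).eval y) ≠ 0) :
    ∃ A : Fin (N + 1) → Polynomial k, ∑ j, A j * f j = 1 := by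
  have h1 : (1 : Polynomial k) ∈ Ideal.span (Set.range f) := by
    rw [← Ideal.eq_top_iff_one]
    obtain ⟨d, hd⟩ := (IsPrincipalIdealRing.principal (Ideal.span (Set.range f))).principal
    have hdvd : ∀ j, d ∣ f j := by
      intro j
      rw [← Ideal.mem_span_singleton]
      have : f j ∈ Ideal.span (Set.range f) := Ideal.subset_span ⟨j, rfl⟩
      rw [hd] at this
      exact this
    have hdeg : d.degree = 0 := by
      by_contra hne
      obtain ⟨y, hy⟩ := IsAlgClosed.exists_root d hne
      apply hf y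
      funext j
      exact Polynomial.eval_eq_zero_of_dvd_of_eval_eq_zero (hdvd j) hy
    rw [hd]
    exact Ideal.span_singleton_eq_top.2 (Polynomial.isUnit_iff_degree_eq_zero.2 hdeg)
  rw [Ideal.mem_span_range_iff_exists_fun] at h1
  exact h1

/-- degrees of the same map in two coordinates -/
theorem vdeg_eq {k : Type} [Field k] [IsAlgClosed k] {N : ℕ} (f g : Fin (N + 1) → Polynomial k)
    (hf : ∀ y, (fun j => (f j).eval y) ≠ 0) (hg : ∀ y, (fun j => (g j).eval y) ≠ 0) (c : k)
    (hc : c ≠ 0)
    (h : ∀ y, y ≠ 0 → Projectivization.mk k _ (hf y) = Projectivization.mk k _ (hg (c * y))) :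
    vdeg f = vdeg g := by
  have : Infinite k := IsAlgClosed.instInfinite
  let g' : Fin (N + 1) → Polynomial k := fun j => (g j).comp (Polynomial.C c * Polynomial.X)
  have hg' : ∀ y, (fun j => (g' j).eval y) ≠ 0 := by
    intro y
    have := hg (c * y)
    simpa [g'] using this
  obtain ⟨A, hA⟩ := Newton.exists_bezout_one f hf
  obtain ⟨B, hB⟩ := Newton.exists_bezout_one g' hg'
  have hx : ∀ j l, f j * g' l = f l * g' j := by
    intro j l
    have hz : (f j * g' l - f l * g' j) * Polynomial.X = 0 := by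
      apply Polynomial.funext
      intro y
      rw [Polynomial.eval_zero]
      by_cases hy : y = 0
      · rw [hy]; simp
      · have := h y hy
        rw [Projectivization.mk_eq_mk_iff] at this
        obtain ⟨a, ha⟩ := this
        have e1 := congrFun ha j
        have e2 := congrFun ha l
        simp only [Pi.smul_apply, Units.smul_def, smul_eq_mul] at e1 e2
        have e3 : (g' j).eval y = (g j).eval (c * y) := by simp [g']
        have e4 : (g' l).eval y = (g l).eval (c * y) := by simp [g']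
        rw [Polynomial.eval_mul, Polynomial.eval_sub, Polynomial.eval_mul, Polynomial.eval_mul,
          e3, e4, ← e1, ← e2]
        ring
    rcases mul_eq_zero.1 hz with h1 | h1
    · exact sub_eq_zero.1 h1
    · exact absurd h1 Polynomial.X_ne_zero
  set u := ∑ j, A j * g' j with hu
  set v := ∑ j, B j * f j with hv
  have hgu : ∀ l, g' l = u * f l := by
    intro l
    calc g' l = (∑ j, A j * f j) * g' l := by rw [hA, one_mul]
      _ = ∑ j, A j * (f j * g' l) := by rw [Finset.sum_mul]; simp [mul_assoc]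
      _ = ∑ j, A j * (f l * g' j) := by simp_rw [hx]
      _ = u * f l := by
        rw [hu, Finset.sum_mul]
        refine Finset.sum_congr rfl fun j _ => by ring
  have hfv : ∀ l, f l = v * g' l := by
    intro l
    calc f l = (∑ j, B j * g' j) * f l := by rw [hB, one_mul]
      _ = ∑ j, B j * (f l * g' j) := by
        rw [Finset.sum_mul]
        refine Finset.sum_congr rfl fun j _ => by ring
      _ = ∑ j, B j * (f j * g' l) := by simp_rw [hx l]
      _ = v * g' l := by
        rw [hv, Finset.sum_mul]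
        refine Finset.sum_congr rfl fun j _ => by ring
  have huv : u * v = 1 := by
    have h1 : u * v * 1 = 1 := by
      rw [← hB, Finset.mul_sum]
      refine Finset.sum_congr rfl fun j _ => ?_
      calc u * v * (B j * g' j) = B j * (u * (v * g' j)) := by ring
        _ = B j * (u * f j) := by rw [← hfv j]
        _ = B j * g' j := by rw [← hgu j]
    rwa [mul_one] at h1
  have hu0 : u.natDegree = 0 := Polynomial.natDegree_eq_zero_of_isUnit (IsUnit.of_mul_eq_one _ huv)
  have hune : u ≠ 0 := by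
    rintro h0
    rw [h0, zero_mul] at huv
    exact zero_ne_one huv
  have hdeg : ∀ j, (f j).natDegree = (g j).natDegree := by
    intro j
    have e1 : (g' j).natDegree = (g j).natDegree := by
      simp only [g']
      rw [Polynomial.natDegree_comp, Polynomial.natDegree_C_mul_X c hc, mul_one]
    rw [← e1, hgu j]
    by_cases hfj : f j = 0
    · simp [hfj]
    · rw [Polynomial.natDegree_mul hune hfj, hu0, zero_add]
  unfold vdeg
  simp only [hdeg]

theorem vdeg_pos {k : Type} [Field k] {N : ℕ} (f : Fin (N + 1) → Polynomial k)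
    (hf : ∀ y, (fun j => (f j).eval y) ≠ 0)
    (h : Projectivization.mk k _ (hf 0) ≠ Projectivization.mk k _ (hf 1)) : 0 < vdeg f := by
  by_contra hcon
  have h0 : vdeg f = 0 := by omega
  apply h
  congr 1
  funext j
  have h1 : (f j).natDegree ≤ 0 := by
    rw [← h0]
    exact Finset.le_sup (f := fun i => (f i).natDegree) (Finset.mem_univ j)
  rw [Polynomial.eq_C_of_natDegree_le_zero h1]
  simp

end CompJac
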