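import Mathlib
import Pool.Agent.Helper36.Ses.Inter

/-!
# Intersection numbers of line bundles with curves: invariance and positivity
-/

open MvPolynomial

namespace Seshadri

section Res

variable {k κ : Type} [Field k] [Field κ] [Algebra k κ]

/-- `x` is congruent to the constant `c` modulo the maximal ideal of `v`. -/
def IsRes (v : Place k κ) (x : κ) (c : k) : Prop :=
  x = algebraMap k κ c ∨ 0 < v.ord (x - algebraMap k κ c)

lemma Place.ord_nonneg_add {v : Place k κ} {x y : κ} (hx : 0 ≤ v.ord x) (hy : 0 ≤ v.ord y) :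
    0 ≤ v.ord (x + y) := by
  rcases eq_or_ne x 0 with rfl | hx0
  · rwa [zero_add]
  rcases eq_or_ne y 0 with rfl | hy0
  · rwa [add_zero]
  rcases eq_or_ne (x + y) 0 with h | h
  · rw [h, v.ord_zero]
  · exact le_trans (le_min hx hy) (v.ord_add x y hx0 hy0 h)

lemma Place.small_add {v : Place k κ} {x y : κ} (hx : x = 0 ∨ 0 < v.ord x)
    (hy : y = 0 ∨ 0 < v.ord y) : x + y = 0 ∨ 0 < v.ord (x + y) := by
  rcases hx with rfl | hx
  · rwa [zero_add]
  rcases hy with rfl | hy
  · rw [add_zero]; exact Or.inr hx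
  have hx0 : x ≠ 0 := by rintro rfl; rw [v.ord_zero] at hx; exact lt_irrefl _ hx
  have hy0 : y ≠ 0 := by rintro rfl; rw [v.ord_zero] at hy; exact lt_irrefl _ hy
  by_cases h : x + y = 0
  · exact Or.inl h
  · exact Or.inr (lt_of_lt_of_le (lt_min hx hy) (v.ord_add x y hx0 hy0 h))

lemma Place.small_mul {v : Place k κ} {x y : κ} (hx : 0 ≤ v.ord x)
    (hy : y = 0 ∨ 0 < v.ord y) : x * y = 0 ∨ 0 < v.ord (x * y) := by
  rcases hy with rfl | hy
  · left; rw [mul_zero]
  rcases eq_or_ne x 0 with rfl | hx0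
  · left; rw [zero_mul]
  have hy0 : y ≠ 0 := by rintro rfl; rw [v.ord_zero] at hy; exact lt_irrefl _ hy
  right
  rw [v.ord_mul x y hx0 hy0]
  omega

lemma isRes_iff {v : Place k κ} {x : κ} {c : k} :
    IsRes v x c ↔ (x - algebraMap k κ c = 0 ∨ 0 < v.ord (x - algebraMap k κ c)) := by
  rw [IsRes, sub_eq_zero]

lemma IsRes.nonneg {v : Place k κ} {x : κ} {c : k} (h : IsRes v x c) : 0 ≤ v.ord x := by
  rcases h with rfl | h
  · rw [v.ord_algebraMap]
  · have := Place.ord_nonneg_add (v := v) h.le (v.ord_algebraMap c).ge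
    rwa [sub_add_cancel] at this

lemma IsRes.const (v : Place k κ) (c : k) : IsRes v (algebraMap k κ c) c := Or.inl rfl

lemma IsRes.add {v : Place k κ} {x y : κ} {c d : k} (hx : IsRes v x c) (hy : IsRes v y d) :
    IsRes v (x + y) (c + d) := by
  rw [isRes_iff] at hx hy ⊢
  have := Place.small_add hx hy
  have e : x - algebraMap k κ c + (y - algebraMap k κ d) =
      x + y - algebraMap k κ (c + d) := by rw [map_add]; ring
  rwa [e] at this

lemma IsRes.mul {v : Place k κ} {x y : κ} {c d : k} (hx : IsRes v x c) (hy : IsRes v y d) :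
    IsRes v (x * y) (c * d) := by
  have hy0 := hy.nonneg
  rw [isRes_iff] at hx hy ⊢
  have h1 := Place.small_mul hy0 hx
  have h2 := Place.small_mul (v := v) (x := algebraMap k κ c) (v.ord_algebraMap c).ge hy
  have := Place.small_add h1 h2
  have e : y * (x - algebraMap k κ c) +
      algebraMap k κ c * (y - algebraMap k κ d) =
      x * y - algebraMap k κ (c * d) := by rw [map_mul]; ring
  rwa [e] at this

lemma IsRes.unique {v : Place k κ} {x : κ} {c d : k} (hx : IsRes v x c) (hy : IsRes v x d) :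
    c = d := by
  rw [isRes_iff] at hx hy
  have h2 : -(x - algebraMap k κ d) = 0 ∨ 0 < v.ord (-(x - algebraMap k κ d)) := by
    have := Place.small_mul (v := v) (x := algebraMap k κ (-1)) (v.ord_algebraMap _).ge hy
    rw [map_neg, map_one, neg_one_mul] at this
    exact this
  have := Place.small_add hx h2
  have e : x - algebraMap k κ c + -(x - algebraMap k κ d) =
      algebraMap k κ (d - c) := by rw [map_sub]; ring
  rw [e, v.ord_algebraMap] at this
  rcases this with h | h
  · rw [map_eq_zero] at h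
    exact (sub_eq_zero.1 h).symm
  · exact absurd h (lt_irrefl _)

lemma IsRes.ord_eq_zero {v : Place k κ} {x : κ} {c : k} (h : IsRes v x c) (hc : c ≠ 0) :
    x ≠ 0 ∧ v.ord x = 0 := by
  have hx : x ≠ 0 := by
    rintro rfl
    have : IsRes v (0 : κ) (0 : k) := by left; rw [map_zero]
    exact hc (h.unique this)
  refine ⟨hx, le_antisymm ?_ h.nonneg⟩
  by_contra hcon
  push Not at hcon
  have : IsRes v x (0 : k) := by
    rw [isRes_iff, map_zero, sub_zero]
    exact Or.inr hcon
  exact hc (h.unique this)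

lemma IsRes.inv {v : Place k κ} {x : κ} {c : k} (h : IsRes v x c) (hc : c ≠ 0) :
    IsRes v x⁻¹ c⁻¹ := by
  obtain ⟨hx, h0⟩ := h.ord_eq_zero hc
  rw [isRes_iff] at h ⊢
  have h1 : 0 ≤ v.ord (-(x⁻¹ * algebraMap k κ c⁻¹)) := by
    rcases eq_or_ne (x⁻¹ * algebraMap k κ c⁻¹) 0 with h2 | h2
    · rw [h2, neg_zero, v.ord_zero]
    · have e : -(x⁻¹ * algebraMap k κ c⁻¹) = x⁻¹ * algebraMap k κ (-c⁻¹) := by
        rw [map_neg]; ring
      rw [e, v.ord_mul _ _ (inv_ne_zero hx), v.ord_inv, v.ord_algebraMap, h0]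
      · simp
      · rw [map_ne_zero]
        exact neg_ne_zero.2 (inv_ne_zero hc)
  have := Place.small_mul h1 h
  have hc' : algebraMap k κ c ≠ 0 := by rwa [map_ne_zero]
  have e : -(x⁻¹ * algebraMap k κ c⁻¹) * (x - algebraMap k κ c) =
      x⁻¹ - algebraMap k κ c⁻¹ := by
    rw [map_inv₀]
    field_simp
    ring
  rwa [e] at this

lemma IsRes.aeval {ι : Type} {v : Place k κ} {u : ι → κ} {r : ι → k} (h : ∀ i, IsRes v (u i) (r i))
    (F : MvPolynomial ι k) : IsRes v (aeval u F) (aeval r F) := by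
  induction F using MvPolynomial.induction_on with
  | C a => simp only [aeval_C]; exact IsRes.const v a
  | add p q hp hq => rw [map_add, map_add]; exact hp.add hq
  | mul_X p i hp => rw [map_mul, map_mul, aeval_X, aeval_X]; exact hp.mul (h i)

end Res

lemma aeval_scale {k ι A : Type} [Field k] [Field A] [Algebra k A] {d : ℕ}
    {F : MvPolynomial ι k} (hF : F.IsHomogeneous d) (c : A) (v : ι → A) :
    aeval (fun i => c * v i) F = c ^ d * aeval v F := by
  rw [aeval_def, aeval_def, eval₂_eq, eval₂_eq, Finset.mul_sum]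
  apply Finset.sum_congr rfl
  intro m hm
  have hd : ∑ i ∈ m.support, m i = d := by
    have := hF (mem_support_iff.1 hm)
    rw [Finsupp.weight_apply, Finsupp.sum] at this
    simpa using this
  simp only [mul_pow, Finset.prod_mul_distrib]
  rw [Finset.prod_pow_eq_pow_sum, hd]
  ring

namespace ProjVar

variable {k : Type} [Field k] {ι : Type} (X : ProjVar k ι)

/-- The function field of a curve in `ℙ(k^ι)`, `ι` finite, is the function field of a curve. -/
lemma Curve.isCurveField [Finite ι] (C : X.Curve) : IsCurveField k C.toVar.K where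
  trdeg := C.dim
  fg := by
    obtain ⟨i0, hi0⟩ : ∃ i, C.toVar.gen i ≠ 0 := by
      by_contra h
      push Not at h
      exact C.toVar.gen_ne_zero (funext h)
    have hfin : (Set.range fun i => C.toVar.gen i / C.toVar.gen i0).Finite := Set.finite_range _
    refine ⟨hfin.toFinset, ?_⟩
    rw [Set.Finite.coe_toFinset, eq_top_iff]
    intro u _
    obtain ⟨d, F, G, hF, hG, h0, h1⟩ := C.toVar.gen_span u
    have key : ∀ (F : MvPolynomial ι k), F.IsHomogeneous d → aeval C.toVar.gen F =
        C.toVar.gen i0 ^ d * aeval (fun i => C.toVar.gen i / C.toVar.gen i0) F := by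
      intro F hF
      rw [← aeval_scale hF]
      congr 2
      funext i
      field_simp
    have hmem : ∀ (F : MvPolynomial ι k), aeval (fun i => C.toVar.gen i / C.toVar.gen i0) F ∈
        IntermediateField.adjoin k (Set.range fun i => C.toVar.gen i / C.toVar.gen i0) := by
      intro F
      induction F using MvPolynomial.induction_on with
      | C a => rw [aeval_C]; exact IntermediateField.algebraMap_mem _ a
      | add p q hp hq => rw [map_add]; exact add_mem hp hq
      | mul_X p i hp =>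
        rw [map_mul, aeval_X]
        exact mul_mem hp (IntermediateField.subset_adjoin _ _ ⟨i, rfl⟩)
    rw [key F hF, key G hG] at h1
    rw [key G hG] at h0
    have h2 : aeval (fun i => C.toVar.gen i / C.toVar.gen i0) G ≠ 0 := right_ne_zero_of_mul h0
    have h3 : u = aeval (fun i => C.toVar.gen i / C.toVar.gen i0) F /
        aeval (fun i => C.toVar.gen i / C.toVar.gen i0) G := by
      rw [eq_div_iff h2]
      have h4 : C.toVar.gen i0 ^ d ≠ 0 := pow_ne_zero _ hi0
      apply mul_left_cancel₀ h4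
      linear_combination h1
    rw [h3]
    exact div_mem (hmem F) (hmem G)

/-- The centre of a place of the function field of a curve. -/
lemma exists_center [IsAlgClosed k] [Finite ι] (C : X.Curve) (v : Place k C.toVar.K) :
    ∃ a : X.Point, C.PassesThrough a ∧ ∀ (u : X.K) (t : k), X.Value a.coord u t →
      ∃ τ : C.toVar.K, X.Value C.toVar.gen u τ ∧ IsRes v τ t := by
  have hκ := C.isCurveField X
  set c := C.toVar.gen
  -- a coordinate of minimal order
  obtain ⟨i0, hi0, hmin⟩ : ∃ i0, c i0 ≠ 0 ∧ ∀ i, c i ≠ 0 → v.ord (c i0) ≤ v.ord (c i) := by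
    have hne : {i | c i ≠ 0}.Nonempty := by
      by_contra h
      rw [Set.not_nonempty_iff_eq_empty] at h
      apply C.toVar.gen_ne_zero
      funext i
      by_contra hi
      have : i ∈ {i | c i ≠ 0} := hi
      rw [h] at this
      exact this
    obtain ⟨i0, h1, h2⟩ := Set.exists_min_image {i | c i ≠ 0} (fun i => v.ord (c i))
      (Set.toFinite _) hne
    exact ⟨i0, h1, fun i hi => h2 i hi⟩
  have hord : ∀ i, 0 ≤ v.ord (c i / c i0) := by
    intro i
    by_cases hi : c i = 0
    · rw [hi, zero_div, v.ord_zero]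
    · rw [v.ord_div _ _ hi hi0]
      have := hmin i hi
      omega
  choose r hr using fun i => Place.residue hκ v _ (hord i)
  have hres : ∀ i, IsRes v (c i / c i0) (r i) := hr
  have hr0 : r i0 = 1 := by
    have h1 : IsRes v (c i0 / c i0) (1 : k) := by
      left; rw [div_self hi0, map_one]
    exact (hres i0).unique h1
  have key : ∀ (d : ℕ) (F : MvPolynomial ι k), F.IsHomogeneous d → aeval c F =
      c i0 ^ d * aeval (fun i => c i / c i0) F := by
    intro d F hF
    rw [← aeval_scale hF]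
    congr 2
    funext i
    field_simp
  have hspec : IsSpec k c r := by
    intro d F hF h
    rw [key d F hF] at h
    have h1 := (mul_eq_zero.1 h).resolve_left (pow_ne_zero _ hi0)
    have h2 := IsRes.aeval (v := v) hres F
    rw [h1] at h2
    have h3 : IsRes v (0 : C.toVar.K) (0 : k) := by left; rw [map_zero]
    exact h2.unique h3
  let a : X.Point :=
    { coord := r
      ne_zero := by
        intro h
        have := congrFun h i0
        rw [hr0] at this
        exact one_ne_zero this
      mem := fun d F hF h => hspec d F hF (C.sub d F hF h) }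
  refine ⟨a, hspec, ?_⟩
  rintro u t ⟨d, F, G, hF, hG, h0, h1, h2⟩
  have h0 : aeval r G ≠ 0 := h0
  have h2 : t * aeval r G = aeval r F := h2
  have h3 : aeval c G ≠ 0 := fun h => h0 (hspec d G hG h)
  refine ⟨aeval c F / aeval c G, ⟨d, F, G, hF, hG, h3, h1, div_mul_cancel₀ _ h3⟩, ?_⟩
  have e : aeval c F / aeval c G =
      aeval (fun i => c i / c i0) F * (aeval (fun i => c i / c i0) G)⁻¹ := by
    rw [key d F hF, key d G hG, mul_div_mul_left _ _ (pow_ne_zero _ hi0), div_eq_mul_inv]
  have e2 : t = aeval r F * (aeval r G)⁻¹ := by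
    rw [← h2]; field_simp
  rw [e, e2]
  exact (IsRes.aeval hres F).mul ((IsRes.aeval hres G).inv h0)

lemma nonempty_place [IsAlgClosed k] {κ : Type} [Field κ] [Algebra k κ]
    (hκ : IsCurveField k κ) : Nonempty (Place k κ) := by
  obtain ⟨x, hx⟩ := exists_nonconst hκ
  have h1 := Place.sum_zeros hκ x hx
  have := Place.finite_adjoin hκ x hx
  have h2 : 0 < Module.finrank (IntermediateField.adjoin k {x}) κ := Module.finrank_pos
  rw [← h1] at h2
  by_contra h
  rw [not_nonempty_iff] at h
  rw [finsum_of_isEmpty] at h2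
  exact lt_irrefl _ h2

/-- The restriction of a morphism to a curve at a place. -/
lemma exists_restricts_at [IsAlgClosed k] [Finite ι] {n : ℕ} {φ : Fin n → X.K}
    (C : X.Curve) {v : Place k C.toVar.K} {a : X.Point}
    (ha : ∀ (u : X.K) (t : k), X.Value a.coord u t →
      ∃ τ : C.toVar.K, X.Value C.toVar.gen u τ ∧ IsRes v τ t) {i : Fin n} (hi : X.IsGen φ a i) :
    ∃ t : Fin n → C.toVar.K, X.Restricts φ C i t ∧ poleAt t v = 0 := by
  have h1 : ∀ j, ∃ τ : C.toVar.K, X.Value C.toVar.gen (φ j / φ i) τ ∧ 0 ≤ v.ord τ := by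
    intro j
    obtain ⟨s, hs⟩ := hi.2 j
    obtain ⟨τ, h2, h3⟩ := ha _ _ hs
    exact ⟨τ, h2, h3.nonneg⟩
  choose t ht1 ht2 using h1
  refine ⟨t, ⟨hi.1, ht1⟩, ?_⟩
  unfold poleAt
  apply Nat.le_zero.1
  apply Finset.sup_le
  intro j _
  have := ht2 j
  omega

/-- Every morphism has a restriction to every curve. -/
lemma IsMorphism.exists_restricts [IsAlgClosed k] [Finite ι] {n : ℕ} {φ : Fin n → X.K}
    (h : X.IsMorphism φ) (C : X.Curve) : ∃ i t, X.Restricts φ C i t := by
  obtain ⟨v⟩ := nonempty_place (C.isCurveField X)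
  obtain ⟨a, -, ha⟩ := X.exists_center C v
  obtain ⟨i, hi⟩ := h a
  obtain ⟨t, ht, -⟩ := X.exists_restricts_at C ha hi
  exact ⟨i, t, ht⟩

lemma Restricts.poleAt_eq' {n : ℕ} {φ : Fin n → X.K} {C : X.Curve} {i i' : Fin n}
    {t t' : Fin n → C.toVar.K} (h : X.Restricts φ C i t) (h' : X.Restricts φ C i' t') :
    t i' ≠ 0 ∧ ∀ v : Place k C.toVar.K, (poleAt t' v : ℤ) = poleAt t v + v.ord (t i') := by
  obtain ⟨hi, ht⟩ := h
  obtain ⟨hi', ht'⟩ := h'
  have hti : t i = 1 := Value.unique X C.sub (ht i) (by rw [div_self hi]; exact Value.one X)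
  have hti' : t' i' = 1 := Value.unique X C.sub (ht' i') (by rw [div_self hi']; exact Value.one X)
  have hprod : t i' * t' i = 1 := by
    refine Value.unique X C.sub (Value.mul X (ht i') (ht' i)) ?_
    have : φ i' / φ i * (φ i / φ i') = 1 := by field_simp
    rw [this]
    exact Value.one X
  have hc : t i' ≠ 0 := left_ne_zero_of_mul_eq_one hprod
  have hc' : t' i ≠ 0 := right_ne_zero_of_mul_eq_one hprod
  have e1 : ∀ j, t' j = t j / t i' := by
    intro j
    refine Value.unique X C.sub (ht' j) ?_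
    have := Value.div X C.sub (ht j) (ht i') hc
    have e : φ j / φ i / (φ i' / φ i) = φ j / φ i' := by field_simp
    rwa [e] at this
  have e2 : ∀ j, t j = t' j / t' i := by
    intro j
    refine Value.unique X C.sub (ht j) ?_
    have := Value.div X C.sub (ht' j) (ht' i) hc'
    have e : φ j / φ i' / (φ i / φ i') = φ j / φ i := by field_simp
    rwa [e] at this
  refine ⟨hc, ?_⟩
  intro v
  have l1 := poleAt_le hc e1 ⟨i', rfl⟩ v
  have l2 := poleAt_le hc' e2 ⟨i, rfl⟩ v
  have l3 : v.ord (t' i) = -v.ord (t i') := by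
    have : t' i = (t i')⁻¹ := eq_inv_of_mul_eq_one_right hprod
    rw [this, v.ord_inv]
  linarith

section prod

variable {A : Type} [Field A] [Algebra k A] {w : ι → A}

lemma Value.zpow (hw : IsSpec k X.gen w) {u : X.K} {t : A} (h : X.Value w u t) (ht : t ≠ 0)
    (n : ℤ) : X.Value w (u ^ n) (t ^ n) := by
  cases n with
  | ofNat n => simpa using Value.pow X h n
  | negSucc n =>
    rw [zpow_negSucc, zpow_negSucc]
    exact Value.inv X hw (Value.pow X h _) (pow_ne_zero _ ht)

lemma Value.prod {α : Type} (s : Finset α) {u : α → X.K} {t : α → A}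
    (h : ∀ j ∈ s, X.Value w (u j) (t j)) : X.Value w (∏ j ∈ s, u j) (∏ j ∈ s, t j) := by
  classical
  induction s using Finset.induction_on with
  | empty => simp only [Finset.prod_empty]; exact Value.one X
  | insert a s ha ih =>
    rw [Finset.prod_insert ha, Finset.prod_insert ha]
    exact Value.mul X (h a (Finset.mem_insert_self _ _))
      (ih fun j hj => h j (Finset.mem_insert_of_mem hj))

end prod

namespace LineBundle

variable {X}

lemma Place.ord_prod {κ : Type} [Field κ] [Algebra k κ] (v : Place k κ) {α : Type} (s : Finset α)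
    (f : α → κ) (h : ∀ j ∈ s, f j ≠ 0) : v.ord (∏ j ∈ s, f j) = ∑ j ∈ s, v.ord (f j) := by
  classical
  induction s using Finset.induction_on with
  | empty => simp [v.ord_one]
  | insert a s ha ih =>
    rw [Finset.prod_insert ha, Finset.sum_insert ha, v.ord_mul, ih]
    · exact fun j hj => h j (Finset.mem_insert_of_mem hj)
    · exact h a (Finset.mem_insert_self _ _)
    · exact Finset.prod_ne_zero_iff.2 fun j hj => h j (Finset.mem_insert_of_mem hj)

lemma Place.ord_pow {κ : Type} [Field κ] [Algebra k κ] (v : Place k κ) {x : κ} (h : x ≠ 0)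
    (n : ℕ) : v.ord (x ^ n) = n * v.ord x := by
  induction n with
  | zero => simp [v.ord_one]
  | succ n ih => rw [pow_succ, v.ord_mul _ _ (pow_ne_zero _ h) h, ih]; push_cast; ring

lemma Place.ord_zpow {κ : Type} [Field κ] [Algebra k κ] (v : Place k κ) {x : κ} (h : x ≠ 0)
    (n : ℤ) : v.ord (x ^ n) = n * v.ord x := by
  cases n with
  | ofNat n => simpa using Place.ord_pow v h n
  | negSucc n =>
    rw [zpow_negSucc, v.ord_inv, Place.ord_pow v h, Int.negSucc_eq]
    push_cast
    ring

/-- `L · C` as a sum of local contributions. -/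
lemma inter_eq_finsum [IsAlgClosed k] [Finite ι] (L : X.LineBundle) (C : X.Curve)
    {i : ∀ s, Fin (L.n s)} {t : ∀ s, Fin (L.n s) → C.toVar.K}
    (hr : ∀ s, X.Restricts (L.φ s) C (i s) (t s)) :
    L.inter C = ∑ᶠ v : Place k C.toVar.K, ∑ s, L.e s * (poleAt (t s) v : ℤ) := by
  have hκ := C.isCurveField X
  have h1 : ∀ s, (X.pullDeg (L.φ s) C : ℤ) = ∑ᶠ v : Place k C.toVar.K, (poleAt (t s) v : ℤ) := by
    intro s
    rw [X.pullDeg_eq hκ (hr s), finsum_natCast _ (finite_poleAt hκ _)]
  unfold inter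
  rw [finsum_sum_comm]
  · apply Finset.sum_congr rfl
    intro s _
    rw [h1 s, mul_finsum]
  · intro s _
    refine (finite_poleAt hκ (t s)).subset ?_
    intro v hv
    rw [Function.mem_support] at hv ⊢
    exact right_ne_zero_of_mul hv

lemma exists_isGenAt (L : X.LineBundle) (a : X.Point) : ∃ g, L.IsGenAt a g := by
  choose j hj using fun s => L.isMorphism s a
  exact ⟨_, j, hj, rfl⟩

/-- The local contribution to `L · C` at a place. -/
lemma exists_local [IsAlgClosed k] [Finite ι] (L : X.LineBundle) (C : X.Curve)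
    {i : ∀ s, Fin (L.n s)} {t : ∀ s, Fin (L.n s) → C.toVar.K}
    (hr : ∀ s, X.Restricts (L.φ s) C (i s) (t s)) {v : Place k C.toVar.K} {a : X.Point}
    (ha : ∀ (u : X.K) (t : k), X.Value a.coord u t →
      ∃ τ : C.toVar.K, X.Value C.toVar.gen u τ ∧ IsRes v τ t) {g : X.K} (hg : L.IsGenAt a g) :
    ∃ T : C.toVar.K, T ≠ 0 ∧ X.Value C.toVar.gen (g / ∏ s, L.φ s (i s) ^ L.e s) T ∧
      v.ord T = -∑ s, L.e s * (poleAt (t s) v : ℤ) := by
  obtain ⟨j, hj, rfl⟩ := hg
  have h1 : ∀ s, t s (j s) ≠ 0 ∧ (poleAt (t s) v : ℤ) = -v.ord (t s (j s)) := by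
    intro s
    obtain ⟨t', ht', h0⟩ := X.exists_restricts_at C ha (hj s)
    obtain ⟨h2, h3⟩ := Restricts.poleAt_eq' X (hr s) ht'
    refine ⟨h2, ?_⟩
    have := h3 v
    rw [h0] at this
    push_cast at this
    linarith
  refine ⟨∏ s, t s (j s) ^ L.e s, ?_, ?_, ?_⟩
  · exact Finset.prod_ne_zero_iff.2 fun s _ => zpow_ne_zero _ (h1 s).1
  · have e : (∏ s, L.φ s (j s) ^ L.e s) / ∏ s, L.φ s (i s) ^ L.e s =
        ∏ s, (L.φ s (j s) / L.φ s (i s)) ^ L.e s := by
      rw [← Finset.prod_div_distrib]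
      apply Finset.prod_congr rfl
      intro s _
      rw [div_zpow]
    rw [e]
    exact Value.prod X _ fun s _ => Value.zpow X C.sub ((hr s).2 (j s)) (h1 s).1 _
  · rw [Place.ord_prod v _ _ fun s _ => zpow_ne_zero _ (h1 s).1, ← Finset.sum_neg_distrib]
    apply Finset.sum_congr rfl
    intro s _
    rw [Place.ord_zpow v (h1 s).1, (h1 s).2]
    ring

lemma exists_family [IsAlgClosed k] [Finite ι] (L : X.LineBundle) (C : X.Curve) :
    ∃ (i : ∀ s, Fin (L.n s)) (t : ∀ s, Fin (L.n s) → C.toVar.K),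
      ∀ s, X.Restricts (L.φ s) C (i s) (t s) := by
  choose i t h using fun s => IsMorphism.exists_restricts X (L.isMorphism s) C
  exact ⟨i, t, h⟩

/-- **Isomorphic line bundles have the same degree on every curve.** -/
theorem Iso.inter_eq [IsAlgClosed k] [Finite ι] {L M : X.LineBundle} (h : L.Iso M)
    (C : X.Curve) : L.inter C = M.inter C := by
  have hκ := C.isCurveField X
  obtain ⟨i, t, hr⟩ := L.exists_family C
  obtain ⟨i', t', hr'⟩ := M.exists_family C
  obtain ⟨f, hf0, hf⟩ := h
  set gL : X.K := ∏ s, L.φ s (i s) ^ L.e s with hgL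
  set gM : X.K := ∏ s, M.φ s (i' s) ^ M.e s with hgM
  have hgL0 : gL ≠ 0 := Finset.prod_ne_zero_iff.2 fun s _ => zpow_ne_zero _ (hr s).1
  have hgM0 : gM ≠ 0 := Finset.prod_ne_zero_iff.2 fun s _ => zpow_ne_zero _ (hr' s).1
  have key : ∀ v : Place k C.toVar.K, ∃ ρ : C.toVar.K, ρ ≠ 0 ∧
      X.Value C.toVar.gen (f * gL / gM) ρ ∧ v.ord ρ =
        (∑ s, L.e s * (poleAt (t s) v : ℤ)) - ∑ s, M.e s * (poleAt (t' s) v : ℤ) := by
    intro v
    obtain ⟨a, -, ha⟩ := X.exists_center C v
    obtain ⟨g, hg⟩ := L.exists_isGenAt a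
    obtain ⟨g', hg'⟩ := M.exists_isGenAt a
    obtain ⟨T, hT0, hT, hTo⟩ := L.exists_local C hr ha hg
    obtain ⟨T', hT0', hT', hTo'⟩ := M.exists_local C hr' ha hg'
    obtain ⟨s, hs0, hs⟩ := hf a g g' hg hg'
    obtain ⟨τ, hτ, hres⟩ := ha _ _ hs
    obtain ⟨hτ0, hτo⟩ := hres.ord_eq_zero hs0
    have hg0 : g ≠ 0 := by
      obtain ⟨j, hj, rfl⟩ := hg
      exact Finset.prod_ne_zero_iff.2 fun s _ => zpow_ne_zero _ (hj s).1
    have hg0' : g' ≠ 0 := by
      obtain ⟨j, hj, rfl⟩ := hg'
      exact Finset.prod_ne_zero_iff.2 fun s _ => zpow_ne_zero _ (hj s).1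
    refine ⟨τ * T' / T, div_ne_zero (mul_ne_zero hτ0 hT0') hT0, ?_, ?_⟩
    · have := Value.div X C.sub (Value.mul X hτ hT') hT hT0
      have e : f * g / g' * (g' / gM) / (g / gL) = f * gL / gM := by field_simp
      rwa [← hgL, ← hgM, e] at this
    · rw [v.ord_div _ _ (mul_ne_zero hτ0 hT0') hT0, v.ord_mul _ _ hτ0 hT0', hτo, hTo, hTo']
      ring
  obtain ⟨v₀⟩ := nonempty_place hκ
  obtain ⟨ρ, hρ0, hρ, -⟩ := key v₀
  have hall : ∀ v : Place k C.toVar.K, v.ord ρ =
        (∑ s, L.e s * (poleAt (t s) v : ℤ)) - ∑ s, M.e s * (poleAt (t' s) v : ℤ) := by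
    intro v
    obtain ⟨ρ', -, h1, h2⟩ := key v
    rw [Value.unique X C.sub hρ h1]
    exact h2
  have hsum := Place.sum_ord hκ ρ hρ0
  rw [finsum_congr hall] at hsum
  have fin : ∀ (N : X.LineBundle) (t : ∀ s, Fin (N.n s) → C.toVar.K),
      (Function.support fun v : Place k C.toVar.K => ∑ s, N.e s * (poleAt (t s) v : ℤ)).Finite := by
    intro N t
    refine (Set.finite_iUnion fun s => finite_poleAt hκ (t s)).subset ?_
    intro v hv
    rw [Function.mem_support] at hv
    obtain ⟨s, -, hs⟩ := Finset.exists_ne_zero_of_sum_ne_zero hv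
    rw [Set.mem_iUnion]
    exact ⟨s, right_ne_zero_of_mul hs⟩
  rw [finsum_sub_distrib (fin L t) (fin M t'), ← L.inter_eq_finsum C hr,
    ← M.inter_eq_finsum C hr'] at hsum
  linarith

lemma inter_pow (L : X.LineBundle) (m : ℤ) (C : X.Curve) : (L.pow m).inter C = m * L.inter C := by
  unfold inter pow
  rw [Finset.mul_sum]
  apply Finset.sum_congr rfl
  intro s _
  ring

lemma inter_ofMorphism {n : ℕ} (φ : Fin n → X.K) (h : X.IsMorphism φ) (C : X.Curve) :
    (ofMorphism φ h).inter C = X.pullDeg φ C := by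
  unfold inter ofMorphism
  simp

/-- **An ample line bundle has non-negative degree on every curve.** -/
theorem IsAmple.inter_nonneg [IsAlgClosed k] [Finite ι] {L : X.LineBundle} (h : L.IsAmple)
    (C : X.Curve) : 0 ≤ L.inter C := by
  obtain ⟨m, hm, n, φ, hφ, hiso⟩ := h
  have h1 := hiso.inter_eq C
  rw [inter_pow, inter_ofMorphism] at h1
  have h2 : 0 ≤ m * L.inter C := by rw [h1]; exact Int.natCast_nonneg _
  exact nonneg_of_mul_nonneg_right h2 hm

omit X in
lemma exists_ord_neg [IsAlgClosed k] {κ : Type} [Field κ] [Algebra k κ]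
    (hκ : IsCurveField k κ) {x : κ} (hx : ∀ c : k, x ≠ algebraMap k κ c) :
    ∃ v : Place k κ, v.ord x < 0 := by
  have hx0 : x ≠ 0 := by
    rintro rfl
    exact hx 0 (map_zero _).symm
  have hx' : ∀ c : k, x⁻¹ ≠ algebraMap k κ c := by
    intro c hc
    apply hx c⁻¹
    rw [map_inv₀, ← hc, inv_inv]
  have h1 := Place.sum_zeros hκ x⁻¹ hx'
  have := Place.finite_adjoin hκ x⁻¹ hx'
  have h2 : 0 < Module.finrank (IntermediateField.adjoin k {x⁻¹}) κ := Module.finrank_pos
  rw [← h1] at h2
  by_contra h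
  push Not at h
  have h3 : ∀ v : Place k κ, (v.ord x⁻¹).toNat = 0 := by
    intro v
    have := h v
    rw [v.ord_inv]
    omega
  rw [finsum_congr h3, finsum_zero] at h2
  exact lt_irrefl _ h2

/-- A closed embedding has positive degree on every curve. -/
lemma pullDeg_pos [IsAlgClosed k] [Finite ι] {n : ℕ} {φ : Fin n → X.K} (hφ : X.IsEmbedding φ)
    (C : X.Curve) : 0 < X.pullDeg φ C := by
  have hκ := C.isCurveField X
  obtain ⟨v₀⟩ := nonempty_place hκ
  obtain ⟨a, hCa, ha⟩ := X.exists_center C v₀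
  obtain ⟨i, hi⟩ := hφ.1 a
  obtain ⟨t, ht, -⟩ := X.exists_restricts_at C ha hi
  by_contra hcon
  have h0 : X.pullDeg φ C = 0 := by omega
  rw [X.pullDeg_eq hκ ht] at h0
  have hfin : (Function.support fun v : Place k C.toVar.K => poleAt t v).Finite := by
    refine (finite_poleAt hκ t).subset ?_
    intro v hv
    rw [Function.mem_support] at hv ⊢
    exact_mod_cast hv
  have hpole : ∀ v : Place k C.toVar.K, poleAt t v = 0 := by
    intro v
    have h1 := single_le_finsum (f := fun v : Place k C.toVar.K => poleAt t v) v hfin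
      (fun _ => Nat.zero_le _)
    simp only [h0] at h1
    omega
  -- all coordinates are constant
  have hconst : ∀ j, ∃ b : k, t j = algebraMap k C.toVar.K b := by
    intro j
    by_contra h
    push Not at h
    obtain ⟨v, hv⟩ := exists_ord_neg hκ h
    have h1 := hpole v
    unfold poleAt at h1
    have h2 : (-(v.ord (t j))).toNat ≤ 0 := by
      rw [← h1]
      exact Finset.le_sup (f := fun j => (-(v.ord (t j))).toNat) (Finset.mem_univ j)
    omega
  choose b hb using hconst
  have hval : ∀ (d : ℕ) (F : MvPolynomial (Fin n) k), F.IsHomogeneous d →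
      X.Value C.toVar.gen (aeval φ F / φ i ^ d) (algebraMap k C.toVar.K (aeval b F)) := by
    intro d F hF
    have e : aeval φ F / φ i ^ d = aeval (fun j => φ j / φ i) F := by
      rw [div_eq_iff (pow_ne_zero _ hi.1), mul_comm, ← aeval_scale hF]
      congr 2
      funext j
      have := hi.1
      field_simp
    rw [e]
    clear e hF
    induction F using MvPolynomial.induction_on with
    | C a => rw [aeval_C, aeval_C]; exact Value.algebraMap X a
    | add p q hp hq => rw [map_add, map_add, map_add]; exact Value.add X hp hq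
    | mul_X p j hp =>
      rw [map_mul, map_mul, map_mul, aeval_X, aeval_X, ← hb]
      exact Value.mul X hp (ht.2 j)
  -- all functions regular at `a` are constant on the curve
  have hreg : ∀ u : X.K, X.Regular a u → ∃ c : k,
      X.Value C.toVar.gen u (algebraMap k C.toVar.K c) := by
    intro u hu
    obtain ⟨d, F, G, hF, hG, ⟨s, hs0, hs⟩, h1⟩ := hφ.2 a i hi u hu
    obtain ⟨τ, hτ, hres⟩ := ha _ _ hs
    have hτ0 := (hres.ord_eq_zero hs0).1
    have e1 := Value.unique X C.sub hτ (hval d G hG)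
    have h2 := Value.div X C.sub (hval d F hF) hτ hτ0
    have hi0 : φ i ^ d ≠ 0 := pow_ne_zero _ hi.1
    have hG0 : aeval φ G ≠ 0 := by
      intro h
      rw [h, zero_div] at hτ
      exact hτ0 (Value.unique X C.sub hτ (Value.zero X))
    have e2 : aeval φ F / φ i ^ d / (aeval φ G / φ i ^ d) = u := by
      rw [← h1]; field_simp
    rw [e2, e1, ← map_div₀] at h2
    exact ⟨_, h2⟩
  -- hence the curve is a point
  obtain ⟨i0, hi0⟩ : ∃ i, a.coord i ≠ 0 := by
    by_contra h
    push Not at h
    exact a.ne_zero (funext h)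
  have hc0 : C.toVar.gen i0 ≠ 0 := by
    intro h
    apply hi0
    have := hCa 1 (MvPolynomial.X i0) (isHomogeneous_X _ _) (by simpa using h)
    simpa using this
  have hX0 : X.gen i0 ≠ 0 := by
    intro h
    apply hc0
    have := C.sub 1 (MvPolynomial.X i0) (isHomogeneous_X _ _) (by simpa using h)
    simpa using this
  have hratio : ∀ j, ∃ c : k, C.toVar.gen j / C.toVar.gen i0 = algebraMap k C.toVar.K c := by
    intro j
    obtain ⟨c, hc⟩ := hreg _ ⟨_, Value.coord X (w := a.coord) j i0 hX0 hi0⟩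
    exact ⟨c, Value.unique X C.sub (Value.coord X j i0 hX0 hc0) hc⟩
  choose c hc using hratio
  obtain ⟨x, hx⟩ := exists_nonconst hκ
  obtain ⟨d, F, G, hF, hG, hG0, h1⟩ := C.toVar.gen_span x
  have key : ∀ (F : MvPolynomial ι k), F.IsHomogeneous d → aeval C.toVar.gen F =
      C.toVar.gen i0 ^ d * algebraMap k C.toVar.K (aeval c F) := by
    intro F hF
    have e : algebraMap k C.toVar.K (aeval c F) =
        aeval (fun j => C.toVar.gen j / C.toVar.gen i0) F := by
      clear hF
      induction F using MvPolynomial.induction_on with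
      | C a => rw [aeval_C, aeval_C]; rfl
      | add p q hp hq => rw [map_add, map_add, map_add, hp, hq]
      | mul_X p j hp => rw [map_mul, map_mul, map_mul, aeval_X, aeval_X, hp, ← hc]
    rw [e, ← aeval_scale hF]
    congr 2
    funext j
    field_simp
  apply hx (aeval c F / aeval c G)
  rw [key G hG] at hG0
  rw [key F hF, key G hG] at h1
  rw [map_div₀, eq_div_iff (right_ne_zero_of_mul hG0)]
  apply mul_left_cancel₀ (left_ne_zero_of_mul hG0)
  linear_combination h1

/-- **An ample line bundle has positive degree on every curve.** -/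
theorem IsAmple.inter_pos [IsAlgClosed k] [Finite ι] {L : X.LineBundle} (h : L.IsAmple)
    (C : X.Curve) : 0 < L.inter C := by
  obtain ⟨m, hm, n, φ, hφ, hiso⟩ := h
  have h1 := hiso.inter_eq C
  rw [inter_pow, inter_ofMorphism] at h1
  have h2 : 0 < m * L.inter C := by rw [h1]; exact_mod_cast pullDeg_pos hφ C
  exact pos_of_mul_pos_right h2 hm.le

end LineBundle

end ProjVar

end Seshadri
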