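import Mathlib
import Pool.Agent.Helper36.Ses.WData
import Pool.Agent.Helper38.SesPlaces

/-!
# Heights and orthogonality over the field `W`
-/

namespace Seshadri

open Pt Polynomial

section Aut

variable {k κ : Type} [Field k] [Field κ] [Algebra k κ]

/-- transport of a place by an automorphism -/
def Place.comapAut (θ : κ ≃ₐ[k] κ) (v : Place k κ) : Place k κ where
  ord x := v.ord (θ x)
  ord_zero := by rw [map_zero, v.ord_zero]
  ord_mul x y hx hy := by
    rw [map_mul, v.ord_mul _ _ (by simpa using hx) (by simpa using hy)]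
  ord_add x y hx hy hxy := by
    rw [map_add]
    refine v.ord_add _ _ (by simpa using hx) (by simpa using hy) ?_
    rw [← map_add]
    exact fun h0 => hxy ((map_eq_zero_iff θ θ.injective).mp h0)
  ord_algebraMap c := by rw [AlgEquiv.commutes, v.ord_algebraMap]
  exists_ord_eq_one := by
    obtain ⟨t, ht⟩ := v.exists_ord_eq_one
    exact ⟨θ.symm t, by rw [AlgEquiv.apply_symm_apply, ht]⟩

/-- transport of places by an automorphism is a bijection -/
def Place.comapEquiv (θ : κ ≃ₐ[k] κ) : Place k κ ≃ Place k κ where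
  toFun := Place.comapAut θ
  invFun := Place.comapAut θ.symm
  left_inv v := by
    ext x
    show v.ord (θ (θ.symm x)) = v.ord x
    rw [AlgEquiv.apply_symm_apply]
  right_inv v := by
    ext x
    show v.ord (θ.symm (θ x)) = v.ord x
    rw [AlgEquiv.symm_apply_apply]

lemma ht_map_aut [CharP κ 7] (θ : κ ≃ₐ[k] κ) (P : Pt κ) :
    ht k (Pt.map (θ : κ →+* κ) P) = ht k P := by
  unfold ht
  rw [← finsum_comp_equiv (Place.comapEquiv θ) (f := fun v : Place k κ => v.loc P)]
  apply finsum_congr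
  intro v
  unfold Place.loc
  rw [xc_map]
  rfl

end Aut

section Degree

variable {k κ : Type} [Field k] [IsAlgClosed k] [Field κ] [Algebra k κ] [CharP κ 7]

lemma cases_xc (P : Pt κ) (x : κ) (h : xRep P = ![x, 1]) :
    ∃ (y : κ) (hxy : y ^ 2 = x ^ 3 + 1), P = mk x y hxy := by
  rcases cases P with rfl | ⟨x', y, h', rfl⟩
  · rw [xRep_zero] at h
    have := congrFun h 1
    simp at this
  · rw [xRep_mk] at h
    have h0 := congrFun h 0
    simp only [Matrix.cons_val_zero] at h0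
    subst h0
    exact ⟨y, h', rfl⟩

omit [IsAlgClosed k] in
lemma natDegree_num_of_coprime {p s : k[X]} (hps : IsCoprime p s) (hs : s ≠ 0) :
    (algebraMap k[X] (RatFunc k) p / algebraMap k[X] (RatFunc k) s).num.natDegree = p.natDegree ∧
    (algebraMap k[X] (RatFunc k) p / algebraMap k[X] (RatFunc k) s).denom.natDegree =
      s.natDegree := by
  set x : RatFunc k := algebraMap k[X] (RatFunc k) p / algebraMap k[X] (RatFunc k) s with hx
  have h1 : x.num * s = p * x.denom := (RatFunc.num_mul_eq_mul_denom_iff hs).mpr hx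
  have hden0 : x.denom ≠ 0 := x.denom_ne_zero
  have h2 : p ∣ x.num := hps.dvd_of_dvd_mul_right ⟨x.denom, h1⟩
  have h3 : x.num ∣ p := RatFunc.num_div_dvd p hs
  have h4 : s ∣ x.denom := hps.symm.dvd_of_dvd_mul_left ⟨x.num, by rw [← h1, mul_comm]⟩
  have h5 : x.denom ∣ s := RatFunc.denom_div_dvd p s
  constructor
  · exact natDegree_eq_of_degree_eq (degree_eq_degree_of_associated (associated_of_dvd_dvd h3 h2))
  · exact natDegree_eq_of_degree_eq (degree_eq_degree_of_associated (associated_of_dvd_dvd h5 h4))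

/-- The height of a point whose `x`-coordinate is a rational function of `T`. -/
lemma ht_of_ratio (h : IsCurveField k κ) {T : κ} (hT : ∀ c : k, T ≠ algebraMap k κ c)
    {p s : k[X]} (hps : IsCoprime p s) (hs : s ≠ 0) (P : Pt κ)
    (hP : xRep P = ![aeval T p / aeval T s, 1]) :
    ht k P = max p.natDegree s.natDegree * Module.finrank (IntermediateField.adjoin k {T}) κ := by
  have := h.toFF
  have hT' := Place.transcendental_of_ne hT
  obtain ⟨y, hxy, rfl⟩ := cases_xc P _ hP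
  obtain ⟨hd1, hd2⟩ := natDegree_num_of_coprime hps hs
  have h1 := FFPlaces.finrank_adjoin_ratFunc hT'
    (algebraMap k[X] (RatFunc k) p / algebraMap k[X] (RatFunc k) s)
  rw [hd1, hd2] at h1
  have h2 : ((RatFunc.algEquivOfTranscendental T hT'
      (algebraMap k[X] (RatFunc k) p / algebraMap k[X] (RatFunc k) s) :
        IntermediateField.adjoin k {T}) : κ) = aeval T p / aeval T s := by
    have h3 : ∀ f : k[X], ((aeval (IntermediateField.AdjoinSimple.gen k T) f :
        IntermediateField.adjoin k {T}) : κ) = aeval T f := fun f =>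
      (Polynomial.aeval_algHom_apply (IntermediateField.val _)
        (IntermediateField.AdjoinSimple.gen k T) f).symm
    rw [map_div₀, RatFunc.algEquivOfTranscendental_algebraMap,
      RatFunc.algEquivOfTranscendental_algebraMap]
    push_cast
    rw [h3, h3]
  rw [h2] at h1
  by_cases hc : ∀ c : k, aeval T p / aeval T s ≠ algebraMap k κ c
  · rw [ht_eq_finrank h hxy hc, h1]
  · push Not at hc
    obtain ⟨c, hc⟩ := hc
    have h4 : ht k (mk (aeval T p / aeval T s) y hxy) = 0 :=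
      ht_eq_zero_of_const (c := c) (by rw [xc_mk, hc])
    rw [h4, ← h1, hc]
    -- the degree of `κ` over `k(c) = k` is infinite
    have h5 : IntermediateField.adjoin k {algebraMap k κ c} = ⊥ := by
      rw [IntermediateField.adjoin_simple_eq_bot_iff]
      exact IntermediateField.algebraMap_mem _ c
    rw [h5, IntermediateField.finrank_bot']
    symm
    apply Module.finrank_of_not_finite
    intro hfin
    exact hT' (Algebra.IsAlgebraic.isAlgebraic T)

end Degree

section Main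

variable {k : Type} [Field k] [IsAlgClosed k] [CharP k 7] {n : ℕ}

omit [IsAlgClosed k] [CharP k 7] in
lemma aeval_ne_zero_of_transcendental {κ : Type} [Field κ] [Algebra k κ] {T : κ}
    (hT : Transcendental k T) (p : k[X]) (hp : p ≠ 0) : aeval T p ≠ 0 := fun h =>
  hp (transcendental_iff.mp hT p h)

omit [IsAlgClosed k] [CharP k 7] in
lemma transcendental_neg {κ : Type} [Field κ] [Algebra k κ] {T : κ}
    (hT : Transcendental k T) : Transcendental k (-T) := fun h => hT (by simpa using h.neg)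

omit [CharP k 7] in
lemma ht_neg' {κ : Type} [Field κ] [Algebra k κ] [CharP κ 7] (h : IsCurveField k κ) (P : Pt κ) :
    ht k (-P) = ht k P := by
  have h1 : ((ht k (-P) : ℕ) : ℤ) = ((ht k P : ℕ) : ℤ) := (htData h).H_neg P
  exact_mod_cast h1

/-- `Orth t' s'` -/
lemma orth_t'_s' {κ : Type} [Field κ] [Algebra k κ] [CharP κ 7] (h : IsCurveField k κ)
    {T u : κ} (hT : ∀ c : k, T ≠ algebraMap k κ c) (hT0 : T ≠ 0) (hu : u ^ 2 = T ^ 6 + 1) :
    (htData h).Orth (pt2 T u hT0 hu) (pt1 T u hu) := by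
  apply QData.orth_of_forall
  intro α
  have hT' := Place.transcendental_of_ne hT
  have hTn := transcendental_neg hT'
  have hTn' : ∀ c : k, -T ≠ algebraMap k κ c := fun c hc => hT (-c) (by rw [map_neg, ← hc, neg_neg])
  have hadj : IntermediateField.adjoin k {-T} = IntermediateField.adjoin k {T} := by
    apply le_antisymm
    · rw [IntermediateField.adjoin_simple_le_iff]
      exact neg_mem (IntermediateField.mem_adjoin_simple_self k T)
    · rw [IntermediateField.adjoin_simple_le_iff]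
      have := neg_mem (IntermediateField.mem_adjoin_simple_self k (-T))
      rwa [neg_neg] at this
  show ((ht k (pt2 T u hT0 hu + α • pt1 T u hu) : ℕ) : ℤ) =
    ((ht k (pt2 T u hT0 hu - α • pt1 T u hu) : ℕ) : ℤ)
  congr 1
  have e1 : pt2 T u hT0 hu + α • pt1 T u hu = α • pt1 T u hu + (1 : Zw) • pt2 T u hT0 hu := by
    rw [one_smul, add_comm]
  have e2 : pt2 T u hT0 hu - α • pt1 T u hu = -(α • pt1 T u hu - (1 : Zw) • pt2 T u hT0 hu) := by
    rw [one_smul, neg_sub]
  rw [e1, e2, ht_neg' h]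
  rcases twist T u (aeval_ne_zero_of_transcendental hT')
    (aeval_ne_zero_of_transcendental hTn) hT0 hu α 1 with ⟨h1, h2⟩ | ⟨p, s, hps, hs, h1, h2⟩
  · rw [h1, h2]
  · rw [ht_of_ratio h hT hps hs _ h1, ht_of_ratio h hTn' hps hs _ h2, hadj]

lemma finrank_sq {κ : Type} [Field κ] [Algebra k κ] {T : κ} (hT : Transcendental k T) :
    Module.finrank (IntermediateField.adjoin k {T ^ 2}) κ =
      2 * Module.finrank (IntermediateField.adjoin k {T}) κ :=
  FFPlaces.finrank_adjoin_pow hT 2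

lemma ht_pt1 {κ : Type} [Field κ] [Algebra k κ] [CharP κ 7] (h : IsCurveField k κ)
    {T u : κ} (hT : ∀ c : k, T ≠ algebraMap k κ c) (hu : u ^ 2 = T ^ 6 + 1) :
    ht k (pt1 T u hu) = 2 * Module.finrank (IntermediateField.adjoin k {T}) κ := by
  have hT' := Place.transcendental_of_ne hT
  have h2 : Transcendental k (T ^ 2) := hT'.pow two_pos
  unfold pt1
  rw [ht_eq_finrank h, finrank_sq hT']
  intro c hc
  exact h2 (hc ▸ isAlgebraic_algebraMap c)

lemma ht_pt2 {κ : Type} [Field κ] [Algebra k κ] [CharP κ 7] (h : IsCurveField k κ)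
    {T u : κ} (hT : ∀ c : k, T ≠ algebraMap k κ c) (hT0 : T ≠ 0) (hu : u ^ 2 = T ^ 6 + 1) :
    ht k (pt2 T u hT0 hu) = 2 * Module.finrank (IntermediateField.adjoin k {T}) κ := by
  have hT' := FFPlaces.transcendental_inv (Place.transcendental_of_ne hT)
  have h2 : Transcendental k (T⁻¹ ^ 2) := hT'.pow two_pos
  unfold pt2
  rw [ht_eq_finrank h, finrank_sq hT', FFPlaces.adjoin_inv]
  intro c hc
  exact h2 (hc ▸ isAlgebraic_algebraMap c)

set_option linter.unusedVariables false in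
/-- (O8) heights and orthogonality. -/
theorem wHeights (hn : 0 < n) (D : WData k n) (b : WPoint D) :
    (htData (k := k) D.curve).Orth (pt2 D.T D.u b.hT0 D.hu) (pt1 D.T D.u D.hu) ∧
    (htData (k := k) D.curve).Orth (pt2 D.T D.u b.hT0 D.hu) (pt2 b.z b.w b.hz0 b.hw) ∧
    (htData (k := k) D.curve).Orth (pt2 b.z b.w b.hz0 b.hw) (pt1 D.T D.u D.hu) ∧
    ht k (pt1 D.T D.u D.hu) = 8 ∧ ht k (pt2 D.T D.u b.hT0 D.hu) = 8 ∧
    ht k (pt2 b.z b.w b.hz0 b.hw) = 8 * 7 ^ n + 8 ∧
    (∀ c : k, b.z ≠ algebraMap k D.W c) := by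
  have hO1 := orth_t'_s' D.curve D.transc b.hT0 D.hu
  have hs' : ht k (pt1 D.T D.u D.hu) = 8 := by
    rw [ht_pt1 D.curve D.transc, D.deg]
  have ht' : ht k (pt2 D.T D.u b.hT0 D.hu) = 8 := by
    rw [ht_pt2 D.curve D.transc, D.deg]
  -- the action of `θ₁`
  have hθz : D.θ₁ b.z = -b.z := by
    rw [b.hz, map_div₀, map_mul, map_sub, map_pow, D.θ₁T, D.θ₁m, map_one]
    ring
  have hθw : D.θ₁ b.w = b.w := by
    rw [b.w_eq]
    simp only [map_neg, map_add, map_mul, map_sub, map_div₀, map_pow, map_inv₀, map_one, D.θ₁T,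
      D.θ₁u, hθz, neg_sq]
  have hm_t : Pt.map (D.θ₁ : D.W →+* D.W) (pt2 b.z b.w b.hz0 b.hw) =
      -pt2 b.z b.w b.hz0 b.hw := by
    rw [map_pt2 (D.θ₁ : D.W →+* D.W) b.z b.w b.hz0 b.hw
      (by show D.θ₁ b.z ≠ 0; rw [hθz]; exact neg_ne_zero.mpr b.hz0)
      (by show D.θ₁ b.w ^ 2 = D.θ₁ b.z ^ 6 + 1; rw [hθw, hθz, b.hw]; ring)]
    have h1 := pt2_neg b.z b.w b.hz0 b.hw (neg_ne_zero.mpr b.hz0) (by rw [b.hw]; ring)
    rw [← h1]
    unfold pt2
    exact mk_congr (by show (D.θ₁ b.z)⁻¹ ^ 2 = _; rw [hθz])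
      (by show D.θ₁ b.w * (D.θ₁ b.z)⁻¹ ^ 3 = _; rw [hθw, hθz])
  have hm_s' : Pt.map (D.θ₁ : D.W →+* D.W) (pt1 D.T D.u D.hu) = pt1 D.T D.u D.hu := by
    rw [map_pt1 (D.θ₁ : D.W →+* D.W) D.T D.u D.hu
      (by show D.θ₁ D.u ^ 2 = D.θ₁ D.T ^ 6 + 1; rw [D.θ₁u, D.θ₁T, D.hu])]
    unfold pt1
    exact mk_congr (by show (D.θ₁ D.T) ^ 2 = _; rw [D.θ₁T]) (by show D.θ₁ D.u = _; rw [D.θ₁u])
  have hm_t' : Pt.map (D.θ₁ : D.W →+* D.W) (pt2 D.T D.u b.hT0 D.hu) = pt2 D.T D.u b.hT0 D.hu := by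
    rw [map_pt2 (D.θ₁ : D.W →+* D.W) D.T D.u b.hT0 D.hu
      (by show D.θ₁ D.T ≠ 0; rw [D.θ₁T]; exact b.hT0)
      (by show D.θ₁ D.u ^ 2 = D.θ₁ D.T ^ 6 + 1; rw [D.θ₁u, D.θ₁T, D.hu])]
    unfold pt2
    exact mk_congr (by show (D.θ₁ D.T)⁻¹ ^ 2 = _; rw [D.θ₁T])
      (by show D.θ₁ D.u * (D.θ₁ D.T)⁻¹ ^ 3 = _; rw [D.θ₁u, D.θ₁T])
  have hO : ∀ P : Pt D.W, Pt.map (D.θ₁ : D.W →+* D.W) P = P →
      (htData (k := k) D.curve).Orth P (pt2 b.z b.w b.hz0 b.hw) := by
    intro P hP
    apply QData.orth_of_forall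
    intro α
    show ((ht k (P + α • pt2 b.z b.w b.hz0 b.hw) : ℕ) : ℤ) =
      ((ht k (P - α • pt2 b.z b.w b.hz0 b.hw) : ℕ) : ℤ)
    congr 1
    rw [← ht_map_aut D.θ₁, map_add, map_zw_smul, hP, hm_t, smul_neg, sub_eq_add_neg]
  have hO2 := hO _ hm_t'
  have hO3 := QData.Orth.symm _ (hO _ hm_s')
  -- the height of `P₁(b)`
  have hP1 : ht k (pt1 b.z b.w b.hw) = 8 * 7 ^ n + 8 := by
    have h1 := QData.H_add_of_orth _ (QData.Orth.symm _ hO1) 1 (Fr ^ n)
    rw [one_smul, ← b.sum, QData.norm_Fr_pow, map_one, one_smul] at h1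
    have h2 : ((ht k (pt1 b.z b.w b.hw) : ℕ) : ℤ) = ((ht k (pt1 D.T D.u D.hu) : ℕ) : ℤ) +
      (7 ^ n : ℤ) • ((ht k (pt2 D.T D.u b.hT0 D.hu) : ℕ) : ℤ) := h1
    rw [hs', ht', smul_eq_mul] at h2
    have h3 : ((ht k (pt1 b.z b.w b.hw) : ℕ) : ℤ) = ((8 * 7 ^ n + 8 : ℕ) : ℤ) := by
      rw [h2]
      push_cast
      ring
    exact_mod_cast h3
  have hzc : ∀ c : k, b.z ≠ algebraMap k D.W c := by
    intro c hc
    have h1 : ht k (pt1 b.z b.w b.hw) = 0 := by
      apply ht_eq_zero_of_const (c := c ^ 2)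
      unfold pt1
      rw [xc_mk, hc, map_pow]
    omega
  refine ⟨hO1, hO2, hO3, hs', ht', ?_, hzc⟩
  rw [ht_pt2 D.curve hzc, ← ht_pt1 D.curve hzc b.hw, hP1]

end Main

end Seshadri
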